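import Pool.Agent.H95.KF.PushF
import Pool.Agent.H95.WH.ArtRel

/-!
# Artin induction for `K₋₁(R[F])`
-/

set_option autoImplicit false

open Matrix
open scoped LaurentPolynomial Classical

universe u v w

namespace Pool.Agent.H95.KF

open Pool.Agent.H71.FJ (lamR twR incl)
open Pool.Agent.H95.KM Pool.Agent.H95.WH

variable (R : Type u) [CommRing R] (F : Type v) [Group F]

/-- Families indexed by a finite type. -/
private theorem kart_enum {K : Type} [Fintype K] (D : K → Subgroup F)
    (y : ∀ i, Km1 (MonoidAlgebra R (D i))) (hD : ∀ i, IsCyclic (D i)) (z : Km1 (MonoidAlgebra R F))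
    (hz : z = ∑ i, Km1.map (incl R (D i)) (y i)) :
    ∃ (r : ℕ) (D : Fin r → Subgroup F) (y : ∀ i, Km1 (MonoidAlgebra R (D i))),
      (∀ i, IsCyclic (D i)) ∧ z = ∑ i, Km1.map (incl R (D i)) (y i) :=
  ⟨Fintype.card K, fun i => D ((Fintype.equivFin K).symm i),
    fun i => y ((Fintype.equivFin K).symm i), fun i => hD _, by
      rw [hz]
      exact (Equiv.sum_comp (Fintype.equivFin K).symm
        (fun i => Km1.map (incl R (D i)) (y i))).symm⟩

/-- the relation for the permutation modules -/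
private theorem kart_rel [Finite F] (hR : FinMod (MonoidAlgebra R F))
    (x : Km1 (MonoidAlgebra R F)) :
    ∃ (I J : Type) (_ : Fintype I) (_ : Fintype J) (D : I → Subgroup F) (E : J → Subgroup F)
      (_ : ∀ i, Fintype (F ⧸ D i)) (_ : ∀ j, Fintype (F ⧸ E j)),
      (∀ i, IsCyclic (D i)) ∧ (∀ j, IsCyclic (E j)) ∧
      Nat.card F • x + ∑ i : I, kpush (twR R (F ⧸ D i)) x =
        ∑ j : J, kpush (twR R (F ⧸ E j)) x := by
  obtain ⟨I, J, hI, hJ, D, E, hf1, hf2, a, b, n, hD, hE, hn, hab, hba, ha⟩ := exists_artin_rel F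
  have hfD : ∀ H : Subgroup F, Fintype (F ⧸ H) := fun H => Fintype.ofFinite _
  have key := kpush_tw_inter R hR n hn a b hab hba ha x
  refine ⟨I, J, hI, hJ, D, E, fun _ => hfD _, fun _ => hfD _, hD, hE, ?_⟩
  rw [kpush_tw_sigma R (fun i : Fin (Nat.card F) ⊕ I => (Sum.elim (fun _ => ⊤) D i : Subgroup F)),
    kpush_tw_sigma R E, Fintype.sum_sum_type] at key
  have h1 : ∑ i : Fin (Nat.card F), kpush (twR R (F ⧸ (⊤ : Subgroup F))) x = Nat.card F • x := by
    rw [Finset.sum_const, Finset.card_univ, Fintype.card_fin, kpush_tw_top]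
  rw [← h1]
  exact key

/-- **Artin induction** for `K₋₁(R[F])`. -/
theorem artin_Km1 [Finite F] (hR : FinMod (MonoidAlgebra R F)) (x : Km1 (MonoidAlgebra R F)) :
    ∃ (m r : ℕ) (D : Fin r → Subgroup F) (y : ∀ i, Km1 (MonoidAlgebra R (D i))),
      0 < m ∧ (∀ i, IsCyclic (D i)) ∧ m • x = ∑ i, Km1.map (incl R (D i)) (y i) := by
  obtain ⟨I, J, hI, hJ, D, E, hfD, hfE, hD, hE, key⟩ := kart_rel R F hR x
  obtain ⟨r, DD, y, h1, h2⟩ := kart_enum R F (K := J ⊕ I) (Sum.elim E D)
    (fun i => match i with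
      | Sum.inl j => kpush (lamR R (E j)) x
      | Sum.inr i => -kpush (lamR R (D i)) x)
    (by
      rintro (i | i)
      · exact hE i
      · exact hD i) (Nat.card F • x) (by
      rw [Fintype.sum_sum_type]
      have h4 : ∀ j : J, Km1.map (incl R (E j)) (kpush (lamR R (E j)) x) =
          kpush (twR R (F ⧸ E j)) x := fun j => ind_kres R _ x
      have h5 : ∀ j : I, Km1.map (incl R (D j)) (-kpush (lamR R (D j)) x) =
          -kpush (twR R (F ⧸ D j)) x := by
        intro j
        rw [map_neg, ind_kres]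
      refine Eq.trans ?_ (congrArg₂ (· + ·) (Finset.sum_congr rfl (fun j _ => (h4 j).symm))
        (Finset.sum_congr rfl (fun j _ => (h5 j).symm)))
      rw [Finset.sum_neg_distrib, ← key]
      abel)
  exact ⟨Nat.card F, r, DD, y, Nat.card_pos, h1, h2⟩

end Pool.Agent.H95.KF
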