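import Pool.Agent.H95.KF.Dia

/-!
# Project KF, module FinM: group rings of finite groups

## Paper proof

Torsion freeness: coefficientwise. `B = MonoidAlgebra (R ⧸ (n)) F`, `π = MonoidAlgebra.mapRingHom F (Ideal.Quotient.mk _)`;
see `artR_div` and `powMod_of_finite` in `Pool/Agent/H95/WH/ArtKR.lean` (copy the private lemma) for the kernel and for
finiteness. The universe: `B : Type (max u v)` if `MonoidAlgebra R F : Type (max u v)`; fine.
-/

set_option autoImplicit false

open Matrix

universe u v w

namespace Pool.Agent.H95.KF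

private theorem finM_div (R : Type u) [CommRing R] (F : Type v) [Group F] (n : ℕ)
    (r : MonoidAlgebra R F)
    (h : MonoidAlgebra.mapRingHom F (Ideal.Quotient.mk (Ideal.span {(n : R)})) r = 0) :
    ∃ z : MonoidAlgebra R F, r = (n : ℤ) • z := by
  have h0 : ∀ t : R, ∃ z : R, Ideal.Quotient.mk (Ideal.span {(n : R)}) t = 0 → t = (n : R) * z := by
    intro t
    by_cases ht : Ideal.Quotient.mk (Ideal.span {(n : R)}) t = 0
    · rw [Ideal.Quotient.eq_zero_iff_mem, Ideal.mem_span_singleton] at ht
      obtain ⟨z, hz⟩ := ht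
      exact ⟨z, fun _ => hz⟩
    · exact ⟨0, fun h => absurd h ht⟩
  choose f hf using h0
  classical
  let g : R → R := fun t => if t = 0 then 0 else f t
  refine ⟨MonoidAlgebra.ofCoeff (r.coeff.mapRange g (by simp [g])), ?_⟩
  ext x
  have h1 : (MonoidAlgebra.mapRingHom F (Ideal.Quotient.mk (Ideal.span {(n : R)})) r).coeff x = 0 := by
    rw [h]
    rfl
  rw [MonoidAlgebra.coeff_mapRingHom] at h1
  change r.coeff x = (n : ℤ) • (g (r.coeff x))
  by_cases h2 : r.coeff x = 0
  · simp [h2, g]
  · simp only [g, if_neg h2, natCast_zsmul, nsmul_eq_mul]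
    exact hf _ h1

theorem finMod_monoidAlgebra (R : Type u) [CommRing R] (F : Type v) [Group F] [Finite F]
    (h1 : ∀ n : ℕ, n ≠ 0 → ∀ x : R, (n : ℤ) • x = 0 → x = 0)
    (h2 : ∀ n : ℕ, n ≠ 0 → Finite (R ⧸ Ideal.span {(n : R)})) : FinMod (MonoidAlgebra R F) := by
  refine ⟨?_, ?_⟩
  · intro n hn x hx
    ext g
    refine h1 n hn (x.coeff g) ?_
    have h3 : ((n : ℤ) • x).coeff g = (0 : MonoidAlgebra R F).coeff g := by rw [hx]
    exact h3
  · intro n hn
    have hfin := h2 n hn
    refine ⟨MonoidAlgebra (R ⧸ Ideal.span {(n : R)}) F, inferInstance,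
      MonoidAlgebra.mapRingHom F (Ideal.Quotient.mk (Ideal.span {(n : R)})), ?_, ?_⟩
    · exact Finite.of_injective (fun x : MonoidAlgebra (R ⧸ Ideal.span {(n : R)}) F =>
        (⇑x.coeff : F → R ⧸ Ideal.span {(n : R)}))
        (DFunLike.coe_injective.comp MonoidAlgebra.coeff_injective)
    · refine ⟨?_, ?_⟩
      · intro y
        obtain ⟨s, hs⟩ := Function.Surjective.hasRightInverse
          (Ideal.Quotient.mk_surjective (I := Ideal.span {(n : R)}))
        classical
        let g : R ⧸ Ideal.span {(n : R)} → R := fun t => if t = 0 then 0 else s t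
        refine ⟨MonoidAlgebra.ofCoeff (y.coeff.mapRange g (by simp [g])), ?_⟩
        ext x
        rw [MonoidAlgebra.coeff_mapRingHom]
        change Ideal.Quotient.mk (Ideal.span {(n : R)}) (g (y.coeff x)) = y.coeff x
        by_cases h3 : y.coeff x = 0
        · simp [h3, g]
        · simp only [g, if_neg h3]
          exact hs _
      · intro x
        refine ⟨fun h => finM_div R F n x h, ?_⟩
        rintro ⟨y, rfl⟩
        ext g
        rw [MonoidAlgebra.coeff_mapRingHom]
        change Ideal.Quotient.mk (Ideal.span {(n : R)}) ((n : ℤ) • (y.coeff g)) = 0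
        rw [natCast_zsmul, nsmul_eq_mul, Ideal.Quotient.eq_zero_iff_mem, Ideal.mem_span_singleton]
        exact Dvd.intro _ rfl

end Pool.Agent.H95.KF
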