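import Pool.Agent.H95.KM.Main
import Pool.Agent.H95.KF.Art
import Pool.Agent.H95.KF.FinM

/-!
# Rational injectivity of the assembly map in degree `-1`, all finite subgroups
-/

set_option autoImplicit false

open Matrix
open scoped LaurentPolynomial

universe u v w

namespace Pool.Agent.H95.KF

open Pool.Agent.H71.FJ (conjHom)
open Pool.Agent.H95.KM

/-- The finite subgroups. -/
def FinFam {G : Type v} [Group G] (F : Subgroup G) : Prop := Finite F

theorem finMod_int (F : Type v) [Group F] [Finite F] : FinMod (MonoidAlgebra ℤ F) := by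
  apply finMod_monoidAlgebra
  · intro n hn x hx
    rcases smul_eq_zero.1 hx with h | h
    · exact absurd (by exact_mod_cast h) hn
    · exact h
  · intro n hn
    apply Ideal.finiteQuotientOfFreeOfNeBot
    rw [Ne, Ideal.span_singleton_eq_bot]
    exact_mod_cast hn

section Reduce

variable (R : Type u) [CommRing R] {G : Type v} [Group G]

/-- The comparison map of the colimits. -/
theorem exists_compare : ∃ Φ : ColimKm1 R G FinCyc →+ ColimKm1 R G FinFam,
    ∀ (C : FamSub G FinCyc) (x : Km1 (MonoidAlgebra R C.1)),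
      Φ (cl R G FinCyc C x) = cl R G FinFam ⟨C.1, C.2.1⟩ x := by
  classical
  let φ : SumKm1 R G FinCyc →+ ColimKm1 R G FinFam :=
    DirectSum.toAddMonoid fun C : FamSub G FinCyc => cl R G FinFam ⟨C.1, C.2.1⟩
  have hφ : ∀ (C : FamSub G FinCyc) (x : Km1 (MonoidAlgebra R C.1)),
      φ (inc R G FinCyc C x) = cl R G FinFam ⟨C.1, C.2.1⟩ x := by
    intro C x
    change DirectSum.toAddMonoid _ _ = _
    rw [inc, DirectSum.toAddMonoid_of]
  refine ⟨QuotientAddGroup.lift (colimRel R G FinCyc) φ ?_, ?_⟩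
  · rw [colimRel, AddSubgroup.closure_le]
    rintro z ⟨C, C', g, h, x, rfl⟩
    change φ _ = 0
    rw [rel, map_sub, hφ, hφ, sub_eq_zero]
    exact cl_conj R G FinFam ⟨C.1, C.2.1⟩ ⟨C'.1, C'.2.1⟩ g h x
  · intro C x
    exact hφ C x

/-- classes from subgroups of a finite subgroup -/
theorem cl_ind (H : FamSub G FinFam) (D : Subgroup H.1) (y : Km1 (MonoidAlgebra R D))
    (hfin : Finite (D.map H.1.subtype)) :
    cl R G FinFam H (ind R D.subtype y) =
      cl R G FinFam ⟨D.map H.1.subtype, hfin⟩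
        (ind R (D.equivMapOfInjective H.1.subtype H.1.subtype_injective).toMonoidHom y) := by
  have h : ∀ x ∈ D.map H.1.subtype, (1 : G) * x * 1⁻¹ ∈ H.1 := by
    rintro x ⟨y, _, rfl⟩
    rw [one_mul, inv_one, mul_one]
    exact y.2
  rw [← cl_conj R G FinFam ⟨D.map H.1.subtype, hfin⟩ H 1 h]
  congr 1
  rw [ind, ind, ind, Km1.map_map]
  congr 2
  apply MonoidAlgebra.ringHom_ext
  · intro r
    change MonoidAlgebra.mapDomain _ _ = MonoidAlgebra.mapDomain _ (MonoidAlgebra.mapDomain _ _)
    rw [MonoidAlgebra.mapDomain_single, MonoidAlgebra.mapDomain_single,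
      MonoidAlgebra.mapDomain_single, map_one, map_one, map_one]
  · intro d
    change MonoidAlgebra.mapDomain _ _ = MonoidAlgebra.mapDomain _ (MonoidAlgebra.mapDomain _ _)
    rw [MonoidAlgebra.mapDomain_single, MonoidAlgebra.mapDomain_single,
      MonoidAlgebra.mapDomain_single]
    congr 1
    apply Subtype.ext
    change ((d : H.1) : G) = 1 * ((d : H.1) : G) * 1⁻¹
    rw [one_mul, inv_one, mul_one]

variable {R}

theorem exists_cyc (hR : ∀ (F : Type v) [Group F] [Finite F], FinMod (MonoidAlgebra R F))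
    (Φ : ColimKm1 R G FinCyc →+ ColimKm1 R G FinFam)
    (hΦ : ∀ (C : FamSub G FinCyc) (x : Km1 (MonoidAlgebra R C.1)),
      Φ (cl R G FinCyc C x) = cl R G FinFam ⟨C.1, C.2.1⟩ x)
    (a : ColimKm1 R G FinFam) : ∃ (m : ℕ) (b : ColimKm1 R G FinCyc), 0 < m ∧ m • a = Φ b := by
  obtain ⟨k, F, x, rfl⟩ := exists_repr R G FinFam a
  have key : ∀ i, ∃ (m : ℕ) (b : ColimKm1 R G FinCyc), 0 < m ∧
      m • cl R G FinFam (F i) (x i) = Φ b := by
    intro i
    have : Finite (F i).1 := (F i).2
    obtain ⟨m, r, D, y, hm, hcyc, h⟩ := artin_Km1 R (F i).1 (hR _) (x i)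
    have hfin : ∀ j, Finite ((D j).map (F i).1.subtype) := fun j =>
      Finite.of_equiv _ ((D j).equivMapOfInjective (F i).1.subtype
        (F i).1.subtype_injective).toEquiv
    have hcyc' : ∀ j, IsCyclic ((D j).map (F i).1.subtype) := by
      intro j
      have := hcyc j
      exact isCyclic_of_surjective
        ((D j).equivMapOfInjective (F i).1.subtype (F i).1.subtype_injective)
        ((D j).equivMapOfInjective (F i).1.subtype (F i).1.subtype_injective).surjective
    refine ⟨m, ∑ j, cl R G FinCyc ⟨(D j).map (F i).1.subtype, hfin j, hcyc' j⟩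
      (ind R ((D j).equivMapOfInjective (F i).1.subtype
        (F i).1.subtype_injective).toMonoidHom (y j)), hm, ?_⟩
    rw [← map_nsmul, h, map_sum, map_sum]
    apply Finset.sum_congr rfl
    intro j _
    rw [hΦ]
    exact cl_ind R (F i) (D j) (y j) (hfin j)
  choose m b hm hb using key
  refine ⟨∏ i, m i, ∑ i, (∏ j ∈ Finset.univ.erase i, m j) • b i,
    Finset.prod_pos fun i _ => hm i, ?_⟩
  rw [Finset.smul_sum, map_sum]
  apply Finset.sum_congr rfl
  intro i _
  rw [map_nsmul, ← hb i, ← mul_smul, Finset.prod_erase_mul _ _ (Finset.mem_univ i)]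

end Reduce

section Final

variable {G : Type v} [Group G]

/-- The kernel of the assembly map is a torsion group. -/
theorem kernel_torsion_fin (a : ColimKm1 ℤ G FinFam) (ha : assembly ℤ G FinFam a = 0) :
    ∃ m : ℤ, m ≠ 0 ∧ m • a = 0 := by
  obtain ⟨Φ, hΦ⟩ := exists_compare ℤ (G := G)
  obtain ⟨m, b, hm, hb⟩ := exists_cyc (fun F _ _ => finMod_int F) Φ hΦ a
  have hΦa : ∀ b, assembly ℤ G FinFam (Φ b) = assembly ℤ G FinCyc b := by
    intro b
    obtain ⟨k, F, x, rfl⟩ := exists_repr ℤ G FinCyc b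
    simp only [map_sum]
    apply Finset.sum_congr rfl
    intro i _
    rw [hΦ, assembly_cl, assembly_cl]
  have h1 : assembly ℤ G FinCyc b = 0 := by
    rw [← hΦa, ← hb, map_nsmul, ha, smul_zero]
  obtain ⟨M, hM, h2⟩ := kernel_torsion b h1
  refine ⟨M * m, mul_ne_zero hM (by exact_mod_cast hm.ne'), ?_⟩
  rw [mul_smul, natCast_zsmul, hb, ← map_zsmul, h2, map_zero]

/-- **Rational injectivity of the assembly map in degree `-1`.** -/
theorem assembly_fin_injective (G : Type v) [Group G] :
    Function.Injective (LinearMap.lTensor ℚ (assembly ℤ G FinFam).toIntLinearMap) :=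
  lTensor_injective _ kernel_torsion_fin

end Final

end Pool.Agent.H95.KF
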