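import Pool.Agent.H95.KM.Lau

/-!
# Project KF: modules and idempotent matrices (row vectors, left modules)
-/

set_option autoImplicit false

open Matrix
open scoped LaurentPolynomial

universe u v w

namespace Pool.Agent.H95.KF

open Pool.Agent.H71.FJ

variable {A : Type u} [Ring A] {ι : Type v} [Fintype ι] {κ : Type w} [Fintype κ]

/-- The left module `P` is the image of the idempotent matrix `e` acting on row vectors. -/
def Rep (e : Matrix ι ι A) (P : Type w) [AddCommGroup P] [Module A P] : Prop :=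
  ∃ (i : P →ₗ[A] (ι → A)) (r : (ι → A) →ₗ[A] P), (∀ p, r (i p) = p) ∧ ∀ v, i (r v) = v ᵥ* e

/-- The row vectors fixed by `e`. -/
def fixM (e : Matrix ι ι A) : Submodule A (ι → A) where
  carrier := {v | v ᵥ* e = v}
  add_mem' := fun {a b} ha hb => by
    change (a + b) ᵥ* e = a + b
    rw [add_vecMul, show a ᵥ* e = a from ha, show b ᵥ* e = b from hb]
  zero_mem' := zero_vecMul e
  smul_mem' := fun c {x} hx => by
    change (c • x) ᵥ* e = c • x
    rw [smul_vecMul, show x ᵥ* e = x from hx]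

theorem mem_fixM {e : Matrix ι ι A} {v : ι → A} : v ∈ fixM e ↔ v ᵥ* e = v := Iff.rfl

/-- Congruence modulo `ℓ`. -/
def MCong (ℓ : ℕ) {m n : Type*} (X Y : Matrix m n A) : Prop :=
  ∃ Z : Matrix m n A, X - Y = (ℓ : ℤ) • Z

/-- The row vectors `v` with `v e ≡ 0` modulo `ℓ`. -/
def kerE (ℓ : ℕ) (e : Matrix ι ι A) : Submodule A (ι → A) where
  carrier := {v | ∃ w : ι → A, v ᵥ* e = (ℓ : ℤ) • w}
  add_mem' := fun {a b} ha hb => by
    obtain ⟨w, hw⟩ := ha
    obtain ⟨w', hw'⟩ := hb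
    exact ⟨w + w', by rw [add_vecMul, hw, hw', smul_add]⟩
  zero_mem' := ⟨0, by rw [zero_vecMul, smul_zero]⟩
  smul_mem' := fun c {x} hx => by
    obtain ⟨w, hw⟩ := hx
    refine ⟨c • w, ?_⟩
    rw [smul_vecMul, hw]
    exact smul_comm _ _ _

theorem mem_kerE {ℓ : ℕ} {e : Matrix ι ι A} {v : ι → A} :
    v ∈ kerE ℓ e ↔ ∃ w : ι → A, v ᵥ* e = (ℓ : ℤ) • w := Iff.rfl

/-- The idempotent matrix which represents `kerE ℓ e`, where `e - e ^ 2 = ℓ δ`. -/
def pmat [DecidableEq ι] (ℓ : ℕ) (e δ : Matrix ι ι A) : Matrix (ι ⊕ ι) (ι ⊕ ι) A :=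
  fromBlocks ((1 - e) * (1 - e)) (δ * (1 + (1 - e))) ((ℓ : ℤ) • (1 - e)) (e * (1 + (1 - e)))

end Pool.Agent.H95.KF
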