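import Pool.Agent.H95.KF.El

/-!
# Project KF, module Dia: idempotent matrices intertwined by an integral diagonal matrix

## Paper proof

Induction on `∏ i, (d i).natAbs` (strong, or on a bound), for all `E`.
If all `|d i| = 1`: `g = diagonal d` satisfies `g g = 1`, `E' = g E g`, `MatEquiv E E'` (`x = E g`, `y = g E`:
`x y = E g g E = E`, `y x = g E E g = E'`), `K0.cls_congr`.
Otherwise let `ℓ` be a prime dividing some `d i`, `s i := (ℓ : ℤ) ∣ d i`, `g := gmat A ℓ s`, `A = R[t, t⁻¹]`.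
Define `E'' i j`:= `E i j` if `s i ↔ s j`; `:= ℓ • E i j` if `¬ s i`, `s j`; and if `s i`, `¬ s j`: `E i j * d j =
d i * E' i j` is divisible by `ℓ` and `d j` is prime to `ℓ`, so by Bezout (`u ℓ + v d j = 1`) `E i j` is divisible by `ℓ`:
`E i j = ℓ • z`, and `E'' i j := z`. Then `E g = g E''`. `E''` is idempotent: `g E'' E'' = E g E'' = E E g = E g = g E''`,
cancel `g` (`ℓ` is a nonzero divisor: `hR.1`, `lau_torsion`). Let `d' i = d i / ℓ` if `s i`, `d i` otherwise, so
`diagonal d = g * diagonal d'`. `g (E'' diag(d')) = E g diag(d') = E diag(d) = diag(d) E' = g (diag(d') E')`, cancel `g`: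
`E'' diag(d') = diag(d') E'`. Induction: `mk [E''] = mk [E']`; and `mk_step` (with the quotient `R → R / ℓ` from `hR.2`)
gives `mk [E] = mk [E'']`.
(The entries `(n : A)`, `n : ℤ`, are central: `Int.cast_commute`. `hR.1` is stated for `n : ℕ`, `n ≠ 0`.)
-/

set_option autoImplicit false

open Matrix
open scoped LaurentPolynomial

universe u v w

namespace Pool.Agent.H95.KF

open Pool.Agent.H71.FJ Pool.Agent.H95.KM

/-- `R` is torsion free and `R / n R` is finite for all `n ≠ 0`. -/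
def FinMod (R : Type u) [Ring R] : Prop :=
  (∀ n : ℕ, n ≠ 0 → ∀ x : R, (n : ℤ) • x = 0 → x = 0) ∧
    ∀ n : ℕ, n ≠ 0 → ∃ (B : Type u) (_ : Ring B) (π : R →+* B), Finite B ∧ IsQuo n π

section Aux

variable {A : Type u} [Ring A] {ι : Type v} [Fintype ι] [DecidableEq ι]

private theorem dia_gcancel (ℓ : ℕ) (hℓ : ∀ x : A, (ℓ : ℤ) • x = 0 → x = 0) (s : ι → Prop)
    [DecidablePred s] (X Y : Matrix ι ι A) (h : gmat A ℓ s * X = gmat A ℓ s * Y) : X = Y := by
  ext i j
  have h1 := congrFun (congrFun h i) j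
  rw [gmat, diagonal_mul, diagonal_mul] at h1
  by_cases hs : s i
  · rw [if_pos hs] at h1
    have h2 : (ℓ : ℤ) • (X i j - Y i j) = 0 := by
      rw [zsmul_eq_mul, Int.cast_natCast, mul_sub, h1, sub_self]
    exact sub_eq_zero.1 (hℓ _ h2)
  · rwa [if_neg hs, one_mul, one_mul] at h1

private theorem dia_entry (ℓ : ℕ) (d d' : ι → ℤ) (s : ι → Prop)
    [DecidablePred s] (hs : ∀ i, s i → d i = ℓ * d' i)
    (hns : ∀ i, ¬ s i → d i = d' i ∧ IsCoprime (ℓ : ℤ) (d i)) (E E' : Matrix ι ι A)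
    (h : E * diagonal (fun i => (d i : A)) = diagonal (fun i => (d i : A)) * E') (i j : ι) :
    ∃ z : A, E i j * (if s j then (ℓ : A) else 1) = (if s i then (ℓ : A) else 1) * z := by
  by_cases hi : s i
  · by_cases hj : s j
    · refine ⟨E i j, ?_⟩
      rw [if_pos hi, if_pos hj]
      exact ((Nat.cast_commute ℓ (E i j)).eq).symm
    · obtain ⟨u, v, huv⟩ := (hns j hj).2
      have h1 := congrFun (congrFun h i) j
      rw [mul_diagonal, diagonal_mul] at h1
      refine ⟨(u : A) * E i j + (v : A) * ((d' i : A) * E' i j), ?_⟩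
      rw [if_pos hi, if_neg hj, mul_one]
      have h2 : (u : A) * (ℓ : A) + (v : A) * (d j : A) = 1 := by
        have := congrArg (Int.cast : ℤ → A) huv
        push_cast at this
        exact this
      have h3 : (d i : A) = (ℓ : A) * (d' i : A) := by
        rw [hs i hi]
        push_cast
        rfl
      have c1 : (ℓ : A) * (u : A) = (u : A) * (ℓ : A) := (Nat.cast_commute ℓ (u : A)).eq
      have c2 : (ℓ : A) * (v : A) = (v : A) * (ℓ : A) := (Nat.cast_commute ℓ (v : A)).eq
      have c3 : (d j : A) * E i j = E i j * (d j : A) := (Int.cast_commute (d j) (E i j)).eq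
      calc E i j = ((u : A) * (ℓ : A) + (v : A) * (d j : A)) * E i j := by rw [h2, one_mul]
        _ = (ℓ : A) * ((u : A) * E i j) + (v : A) * (E i j * (d j : A)) := by
            rw [add_mul, ← c1, mul_assoc, mul_assoc, c3]
        _ = (ℓ : A) * ((u : A) * E i j) + (v : A) * ((ℓ : A) * (d' i : A) * E' i j) := by
            rw [h1, h3]
        _ = (ℓ : A) * ((u : A) * E i j + (v : A) * ((d' i : A) * E' i j)) := by
            rw [mul_add]
            congr 1
            rw [mul_assoc, ← mul_assoc (v : A), ← mul_assoc (ℓ : A), c2]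
  · exact ⟨E i j * (if s j then (ℓ : A) else 1), by rw [if_neg hi, one_mul]⟩

private theorem dia_split (ℓ : ℕ) (hℓ : ∀ x : A, (ℓ : ℤ) • x = 0 → x = 0) (d d' : ι → ℤ)
    (s : ι → Prop) [DecidablePred s] (hs : ∀ i, s i → d i = ℓ * d' i)
    (hns : ∀ i, ¬ s i → d i = d' i ∧ IsCoprime (ℓ : ℤ) (d i)) (E E' : Matrix ι ι A)
    (hE : E * E = E)
    (h : E * diagonal (fun i => (d i : A)) = diagonal (fun i => (d i : A)) * E') :
    ∃ E'' : Matrix ι ι A, E'' * E'' = E'' ∧ E * gmat A ℓ s = gmat A ℓ s * E'' ∧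
      E'' * diagonal (fun i => (d' i : A)) = diagonal (fun i => (d' i : A)) * E' := by
  choose Z hZ using dia_entry ℓ d d' s hs hns E E' h
  have hg : E * gmat A ℓ s = gmat A ℓ s * Matrix.of Z := by
    ext i j
    rw [gmat, mul_diagonal, diagonal_mul]
    exact hZ i j
  have hD : gmat A ℓ s * diagonal (fun i => (d' i : A)) = diagonal (fun i => (d i : A)) := by
    rw [gmat, diagonal_mul_diagonal]
    congr 1
    funext i
    by_cases hi : s i
    · rw [if_pos hi, hs i hi]
      push_cast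
      rfl
    · rw [if_neg hi, one_mul, (hns i hi).1]
  refine ⟨Matrix.of Z, dia_gcancel ℓ hℓ s _ _ ?_, hg, dia_gcancel ℓ hℓ s _ _ ?_⟩
  · rw [← mul_assoc, ← hg, mul_assoc, ← hg, ← mul_assoc, hE]
  · rw [← mul_assoc, ← hg, mul_assoc, hD, h, ← mul_assoc, hD]

private theorem dia_base (d : ι → ℤ) (hd : ∀ i, (d i).natAbs = 1) (E E' : Matrix ι ι A)
    (hE : E * E = E)
    (h : E * diagonal (fun i => (d i : A)) = diagonal (fun i => (d i : A)) * E') :
    MatEquiv E E' := by
  have hg : diagonal (fun i => (d i : A)) * diagonal (fun i => (d i : A)) = 1 := by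
    rw [diagonal_mul_diagonal, ← diagonal_one]
    congr 1
    funext i
    have h1 : d i * d i = 1 := by
      rcases Int.natAbs_eq_iff.1 (hd i) with h2 | h2 <;> rw [h2] <;> rfl
    rw [← Int.cast_mul, h1, Int.cast_one]
  refine ⟨E * diagonal (fun i => (d i : A)), diagonal (fun i => (d i : A)) * E, ?_, ?_⟩
  · rw [mul_assoc, ← mul_assoc (diagonal (fun i => (d i : A))), hg, one_mul, hE]
  · rw [mul_assoc, ← mul_assoc E E, hE, h, ← mul_assoc, hg, one_mul]

end Aux

theorem mk_diagonal {R : Type u} [Ring R] (hR : FinMod R) {ι : Type v} [Fintype ι]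
    [DecidableEq ι] (d : ι → ℤ) (hd : ∀ i, d i ≠ 0) (E E' : Matrix ι ι R[T;T⁻¹])
    (hE : E * E = E) (hE' : E' * E' = E')
    (h : E * diagonal (fun i => (d i : R[T;T⁻¹])) = diagonal (fun i => (d i : R[T;T⁻¹])) * E') :
    Km1.mk (K0.cls E hE) = Km1.mk (K0.cls E' hE') := by
  obtain ⟨N, hN⟩ : ∃ N : ℕ, ∏ i, (d i).natAbs = N := ⟨_, rfl⟩
  induction N using Nat.strong_induction_on generalizing d E with
  | _ N ih =>
    by_cases hall : ∀ i, (d i).natAbs = 1
    · rw [K0.cls_congr hE hE' (dia_base d hall E E' hE h)]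
    · obtain ⟨i₀, hi₀⟩ := not_forall.1 hall
      obtain ⟨ℓ, hp, hdvd⟩ := Nat.exists_prime_and_dvd hi₀
      have hdvd' : (ℓ : ℤ) ∣ d i₀ := Int.natCast_dvd.2 hdvd
      obtain ⟨B, _, π, hB, hπ⟩ := hR.2 ℓ hp.ne_zero
      have hℓR := hR.1 ℓ hp.ne_zero
      have hℓA : ∀ x : R[T;T⁻¹], (ℓ : ℤ) • x = 0 → x = 0 := lau_torsion hℓR
      have hs : ∀ i, (ℓ : ℤ) ∣ d i → d i = ℓ * (if (ℓ : ℤ) ∣ d i then d i / ℓ else d i) := by
        intro i hi
        rw [if_pos hi, Int.mul_ediv_cancel' hi]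
      have hns : ∀ i, ¬ (ℓ : ℤ) ∣ d i →
          d i = (if (ℓ : ℤ) ∣ d i then d i / ℓ else d i) ∧ IsCoprime (ℓ : ℤ) (d i) := by
        intro i hi
        refine ⟨by rw [if_neg hi], ?_⟩
        exact (Nat.prime_iff_prime_int.1 hp).coprime_iff_not_dvd.2 hi
      obtain ⟨E'', h1, h2, h3⟩ := dia_split ℓ hℓA d _ (fun i => (ℓ : ℤ) ∣ d i) hs hns E E' hE h
      rw [mk_step ℓ hℓR π hπ (fun i => (ℓ : ℤ) ∣ d i) E E'' hE h1 h2]
      have hpos : ∀ i, 0 < (if (ℓ : ℤ) ∣ d i then d i / ℓ else d i).natAbs := by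
        intro i
        rw [Int.natAbs_pos]
        by_cases hi : (ℓ : ℤ) ∣ d i
        · intro h0
          have h4 := hs i hi
          rw [h0, mul_zero] at h4
          exact hd i h4
        · rw [if_neg hi]
          exact hd i
      have hle : ∀ i, (ℓ : ℤ) ∣ d i →
          (if (ℓ : ℤ) ∣ d i then d i / ℓ else d i).natAbs < (d i).natAbs := by
        intro i hi
        have h4 := congrArg Int.natAbs (hs i hi)
        rw [Int.natAbs_mul, Int.natAbs_natCast] at h4
        have h5 := hpos i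
        have h6 := hp.two_le
        nlinarith
      refine ih _ ?_ _ (fun i h0 => ?_) E'' h1 h3 rfl
      · rw [← hN]
        refine Finset.prod_lt_prod (fun i _ => hpos i) (fun i _ => ?_)
          ⟨i₀, Finset.mem_univ _, hle i₀ hdvd'⟩
        by_cases hi : (ℓ : ℤ) ∣ d i
        · exact (hle i hi).le
        · rw [if_neg hi]
      · have := hpos i
        rw [h0] at this
        exact absurd this (lt_irrefl _)

end Pool.Agent.H95.KF
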