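import Pool.Agent.H95.KF.Defs

/-!
# Project KF, module Stp: the elementary step

## Paper proofs

Write `g = gmat A ℓ s = diagonal g_i`, `g_i ∈ {1, ℓ}`, `D = {i // s i}`, `E_D` the submatrix. `E g = g E'` says
`E i j g_j = g_i E' i j`; so
 (a) `s i`, `s j`: `E i j = E' i j` (cancel `ℓ`);
 (b) `¬ s i`, `s j`: `E' i j = ℓ E i j`;
 (c) `s i`, `¬ s j`: `E i j = ℓ E' i j`;
 (d) `¬ s i`, `¬ s j`: `E i j = E' i j`.
`step_cong`: for `i, j ∈ D`: `E i j = (E E) i j = ∑_{k ∈ D} E i k E k j + ∑_{k ∉ D} E i k E k j`, and the second sum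
is divisible by `ℓ` by (c) (the first factor).
`step_equiv`: `P = fixM E`, `P' = fixM E'` (row vectors), `K = kerE ℓ E_D`. For `w ∈ A^D` let `w⁰ ∈ A^ι` be the
extension by zero, for `v ∈ A^ι` let `v_D` be the restriction.
The map `P × A^D → P' × K`: `(p, w) ↦ (v', w - v'_D)` with `v' := p g + w⁰ E'`.
 * `v' E' = p g E' + w⁰ E' E' = p E g + w⁰ E' = p g + w⁰ E' = v'`.
 * `v'_D = (p g)_D + (w⁰ E')_D = ℓ p_D + w E_D` by (a). In general for `v' ∈ P'`: `v'_D = (v' E')_D ≡ v'_D E_D` modulo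
   `ℓ` (by (a), (b)). So `(w - v'_D) E_D ≡ w E_D - v'_D ≡ - ℓ p_D ≡ 0`, i.e. `w - v'_D ∈ K`.
The inverse: `(v', k) ↦ (p, w)` with `w := k + v'_D` and `p` the unique vector with `p g = v' - w⁰ E'`. It exists:
 the `i`-component, `i ∈ D`, of `v' - w⁰ E'` is that of `v'_D - w E_D = v'_D - k E_D - v'_D E_D ≡ 0` mod `ℓ`.
 It lies in `P`: `(p E) g = p g E' = v' E' - w⁰ E' E' = v' - w⁰ E' = p g`, and `g` can be cancelled (`ℓ` is a
 nonzero divisor).
(It may be easiest to prove that the map `(p, w) ↦ (v', w - v'_D)` is linear, injective and surjective and to use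
`LinearEquiv.ofBijective`: injective: if `v' = 0` and `w = v'_D` then `w = 0`, `p g = 0`, `p = 0`.)
`(ℓ : A)` is central: `Nat.cast_commute`; `(ℓ : ℤ) • x = (ℓ : A) * x = x * (ℓ : A)`.
-/

set_option autoImplicit false
set_option linter.unusedSectionVars false

open Matrix

universe u v w

namespace Pool.Agent.H95.KF

open Pool.Agent.H71.FJ

variable {A : Type u} [Ring A] {ι : Type*} [Fintype ι] [DecidableEq ι]

/-- the diagonal matrix with entries `ℓ` and `1` -/
def gmat (A : Type u) [Ring A] (ℓ : ℕ) (s : ι → Prop) [DecidablePred s] : Matrix ι ι A :=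
  diagonal fun i => if s i then (ℓ : A) else 1

section aux

variable {ℓ : ℕ} {s : ι → Prop} [DecidablePred s] {E E' : Matrix ι ι A}

private theorem stp_smul (x : A) : (ℓ : ℤ) • x = (ℓ : A) * x := by
  rw [zsmul_eq_mul, Int.cast_natCast]

private theorem stp_smul' (x : A) : (ℓ : ℤ) • x = x * (ℓ : A) := by
  rw [stp_smul, (Nat.cast_commute ℓ x).eq]

private theorem stp_entry (h : E * gmat A ℓ s = gmat A ℓ s * E') (i j : ι) :
    E i j * (if s j then (ℓ : A) else 1) = (if s i then (ℓ : A) else 1) * E' i j := by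
  have h1 := congrFun (congrFun h i) j
  unfold gmat at h1
  rwa [mul_diagonal, diagonal_mul] at h1

private theorem stp_a (hℓ : ∀ x : A, (ℓ : ℤ) • x = 0 → x = 0)
    (h : E * gmat A ℓ s = gmat A ℓ s * E') {i j : ι} (hi : s i) (hj : s j) :
    E' i j = E i j := by
  have h1 := stp_entry h i j
  rw [if_pos hi, if_pos hj, ← stp_smul, ← stp_smul'] at h1
  refine sub_eq_zero.1 (hℓ _ ?_)
  rw [smul_sub, h1, sub_self]

private theorem stp_b (h : E * gmat A ℓ s = gmat A ℓ s * E') {i j : ι} (hi : ¬ s i) (hj : s j) :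
    E' i j = (ℓ : ℤ) • E i j := by
  have h1 := stp_entry h i j
  rw [if_neg hi, if_pos hj, one_mul, ← stp_smul'] at h1
  exact h1.symm

private theorem stp_c (h : E * gmat A ℓ s = gmat A ℓ s * E') {i j : ι} (hi : s i) (hj : ¬ s j) :
    E i j = (ℓ : ℤ) • E' i j := by
  have h1 := stp_entry h i j
  rwa [if_pos hi, if_neg hj, mul_one, ← stp_smul] at h1

/-- extension by zero -/
private def stp_ext (s : ι → Prop) [DecidablePred s] : ({i // s i} → A) →ₗ[A] (ι → A) where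
  toFun w i := if h : s i then w ⟨i, h⟩ else 0
  map_add' a b := by
    funext i
    by_cases h : s i <;> simp [h]
  map_smul' c a := by
    funext i
    by_cases h : s i <;> simp [h]

private theorem stp_ext_pos (w : {i // s i} → A) (i : {i // s i}) : stp_ext s w i.1 = w i := by
  show (if h : s i.1 then w ⟨i.1, h⟩ else 0) = _
  rw [dif_pos i.2]

private theorem stp_ext_neg (w : {i // s i} → A) {i : ι} (h : ¬ s i) : stp_ext s w i = 0 := by
  show (if h : s i then w ⟨i, h⟩ else 0) = _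
  rw [dif_neg h]

/-- restriction -/
private def stp_res (s : ι → Prop) : (ι → A) →ₗ[A] ({i // s i} → A) where
  toFun v i := v i.1
  map_add' _ _ := rfl
  map_smul' _ _ := rfl

private theorem stp_vecMul_apply {m n : Type*} [Fintype m] (v : m → A) (M : Matrix m n A)
    (j : n) : (v ᵥ* M) j = ∑ i, v i * M i j := rfl

private theorem stp_gmat (p : ι → A) (i : ι) :
    (p ᵥ* gmat A ℓ s) i = p i * (if s i then (ℓ : A) else 1) := by
  unfold gmat
  exact vecMul_diagonal _ _ _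

private theorem stp_gmat_pos (p : ι → A) {i : ι} (hi : s i) :
    (p ᵥ* gmat A ℓ s) i = (ℓ : ℤ) • p i := by
  rw [stp_gmat, if_pos hi, stp_smul']

private theorem stp_gmat_neg (p : ι → A) {i : ι} (hi : ¬ s i) :
    (p ᵥ* gmat A ℓ s) i = p i := by
  rw [stp_gmat, if_neg hi, mul_one]

private theorem stp_gmat_inj (hℓ : ∀ x : A, (ℓ : ℤ) • x = 0 → x = 0) {p q : ι → A}
    (h : p ᵥ* gmat A ℓ s = q ᵥ* gmat A ℓ s) : p = q := by
  funext i
  have h1 := congrFun h i
  by_cases hi : s i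
  · rw [stp_gmat_pos _ hi, stp_gmat_pos _ hi] at h1
    refine sub_eq_zero.1 (hℓ _ ?_)
    rw [smul_sub, h1, sub_self]
  · rwa [stp_gmat_neg _ hi, stp_gmat_neg _ hi] at h1

private theorem stp_ext_vecMul (hℓ : ∀ x : A, (ℓ : ℤ) • x = 0 → x = 0)
    (h : E * gmat A ℓ s = gmat A ℓ s * E') (w : {i // s i} → A) (i : {i // s i}) :
    (stp_ext s w ᵥ* E') i.1 =
      (w ᵥ* E.submatrix (fun i : {i // s i} => i.1) (fun i : {i // s i} => i.1)) i := by
  rw [stp_vecMul_apply, stp_vecMul_apply,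
    ← Fintype.sum_subtype_add_sum_subtype s (fun j => stp_ext s w j * E' j i.1)]
  have h2 : ∑ j : {j // ¬ s j}, stp_ext s w j.1 * E' j.1 i.1 = 0 :=
    Finset.sum_eq_zero fun j _ => by rw [stp_ext_neg w j.2, zero_mul]
  rw [h2, add_zero]
  refine Finset.sum_congr rfl fun j _ => ?_
  rw [stp_ext_pos, stp_a hℓ h j.2 i.2]
  rfl

private theorem stp_fix (hℓ : ∀ x : A, (ℓ : ℤ) • x = 0 → x = 0)
    (h : E * gmat A ℓ s = gmat A ℓ s * E') {v : ι → A} (hv : v ᵥ* E' = v) (i : {i // s i}) :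
    v i.1 = (stp_res s v ᵥ* E.submatrix (fun i : {i // s i} => i.1)
      (fun i : {i // s i} => i.1)) i + (ℓ : ℤ) • ∑ j : {j // ¬ s j}, v j.1 * E j.1 i.1 := by
  have h1 := congrFun hv i.1
  rw [stp_vecMul_apply, ← Fintype.sum_subtype_add_sum_subtype s (fun j => v j * E' j i.1)] at h1
  rw [← h1]
  congr 1
  · rw [stp_vecMul_apply]
    refine Finset.sum_congr rfl fun j _ => ?_
    rw [stp_a hℓ h j.2 i.2]
    rfl
  · rw [Finset.smul_sum]
    refine Finset.sum_congr rfl fun j _ => ?_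
    rw [stp_b h j.2 i.2, mul_smul_comm]

end aux

theorem step_equiv (ℓ : ℕ) (hℓ : ∀ x : A, (ℓ : ℤ) • x = 0 → x = 0) (s : ι → Prop)
    [DecidablePred s] (E E' : Matrix ι ι A) (hE : E * E = E) (hE' : E' * E' = E')
    (h : E * gmat A ℓ s = gmat A ℓ s * E') :
    Nonempty ((fixM E × ({i // s i} → A)) ≃ₗ[A]
      (fixM E' × kerE ℓ (E.submatrix (fun i : {i // s i} => i.1) (fun i : {i // s i} => i.1)))) := by
  classical
  set ED := E.submatrix (fun i : {i // s i} => i.1) (fun i : {i // s i} => i.1) with hED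
  have hv : ∀ x : fixM E × ({i // s i} → A),
      (x.1.1 ᵥ* gmat A ℓ s + stp_ext s x.2 ᵥ* E') ᵥ* E' =
        x.1.1 ᵥ* gmat A ℓ s + stp_ext s x.2 ᵥ* E' := by
    intro x
    rw [add_vecMul, vecMul_vecMul, vecMul_vecMul, hE', ← h, ← vecMul_vecMul,
      show x.1.1 ᵥ* E = x.1.1 from x.1.2]
  let F0 : (fixM E × ({i // s i} → A)) →ₗ[A] (ι → A) :=
    { toFun := fun x => x.1.1 ᵥ* gmat A ℓ s + stp_ext s x.2 ᵥ* E'
      map_add' := by
        intro x y
        show (x.1.1 + y.1.1) ᵥ* gmat A ℓ s + stp_ext s (x.2 + y.2) ᵥ* E' = _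
        rw [map_add, add_vecMul, add_vecMul]
        abel
      map_smul' := by
        intro c x
        show (c • x.1.1) ᵥ* gmat A ℓ s + stp_ext s (c • x.2) ᵥ* E' = _
        rw [map_smul, smul_vecMul, smul_vecMul, RingHom.id_apply, smul_add] }
  have F0_apply : ∀ x, F0 x = x.1.1 ᵥ* gmat A ℓ s + stp_ext s x.2 ᵥ* E' := fun x => rfl
  have hres : ∀ x : fixM E × ({i // s i} → A), ∀ i : {i // s i},
      F0 x i.1 = (ℓ : ℤ) • x.1.1 i.1 + (x.2 ᵥ* ED) i := by
    intro x i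
    rw [F0_apply, Pi.add_apply, stp_gmat_pos _ i.2, stp_ext_vecMul hℓ h]
  let f1 : (fixM E × ({i // s i} → A)) →ₗ[A] fixM E' :=
    F0.codRestrict (fixM E') fun x => hv x
  have hK : ∀ x : fixM E × ({i // s i} → A), x.2 - stp_res s (F0 x) ∈ kerE ℓ ED := by
    intro x
    refine ⟨fun i => (∑ j : {j // ¬ s j}, F0 x j.1 * E j.1 i.1) - x.1.1 i.1, ?_⟩
    funext i
    rw [sub_vecMul, Pi.sub_apply, Pi.smul_apply, smul_sub]
    have h1 := stp_fix hℓ h (hv x) i
    have h2 := hres x i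
    rw [F0_apply] at h2
    rw [← hED] at h1
    rw [h2] at h1
    rw [F0_apply]
    have h3 : (stp_res s (x.1.1 ᵥ* gmat A ℓ s + stp_ext s x.2 ᵥ* E') ᵥ* ED) i =
        (ℓ : ℤ) • x.1.1 i.1 + (x.2 ᵥ* ED) i -
        (ℓ : ℤ) • ∑ j : {j // ¬ s j}, (x.1.1 ᵥ* gmat A ℓ s + stp_ext s x.2 ᵥ* E') j.1 *
          E j.1 i.1 := by
      rw [h1, add_sub_cancel_right]
    rw [h3]
    abel
  let f2 : (fixM E × ({i // s i} → A)) →ₗ[A] kerE ℓ ED :=
    (LinearMap.snd A (fixM E) ({i // s i} → A) - (stp_res s).comp F0).codRestrict (kerE ℓ ED)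
      fun x => hK x
  have e1 : ∀ x, ((f1 x : fixM E') : ι → A) = F0 x := fun x => rfl
  have e2 : ∀ x, ((f2 x : kerE ℓ ED) : {i // s i} → A) = x.2 - stp_res s (F0 x) := fun x => rfl
  refine ⟨LinearEquiv.ofBijective (f1.prod f2) ⟨?_, ?_⟩⟩
  · rw [← LinearMap.ker_eq_bot, LinearMap.ker_eq_bot']
    intro x hx
    have hx1 : F0 x = 0 := by
      have := congrArg (fun y : fixM E' × kerE ℓ ED => (y.1 : ι → A)) hx
      exact this
    have hx2 : x.2 - stp_res s (F0 x) = 0 := by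
      have := congrArg (fun y : fixM E' × kerE ℓ ED => (y.2 : {i // s i} → A)) hx
      exact this
    rw [hx1, map_zero, sub_zero] at hx2
    have hx3 : x.1.1 = 0 := by
      refine stp_gmat_inj (s := s) hℓ ?_
      have := F0_apply x
      rw [hx1, hx2, map_zero, zero_vecMul, add_zero] at this
      rw [← this, zero_vecMul]
    exact Prod.ext (Subtype.ext hx3) hx2
  · rintro ⟨⟨v, hvf⟩, ⟨k, hk⟩⟩
    have hvf' : v ᵥ* E' = v := hvf
    obtain ⟨z, hz⟩ := hk
    set w : {i // s i} → A := k + stp_res s v with hw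
    set X : ι → A := v - stp_ext s w ᵥ* E' with hX
    have hdiv : ∀ i : {i // s i}, X i.1 =
        (ℓ : ℤ) • ((∑ j : {j // ¬ s j}, v j.1 * E j.1 i.1) - z i) := by
      intro i
      have h1 := stp_fix hℓ h hvf' i
      rw [← hED] at h1
      have h2 := congrFun hz i
      rw [Pi.smul_apply] at h2
      rw [hX, Pi.sub_apply, stp_ext_vecMul hℓ h, ← hED, hw, add_vecMul, Pi.add_apply, h2,
        smul_sub]
      nth_rewrite 1 [h1]
      abel
    have hXE : X ᵥ* E' = X := by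
      rw [hX, sub_vecMul, vecMul_vecMul, hE', hvf']
    set p : ι → A := fun i => if hi : s i then (∑ j : {j // ¬ s j}, v j.1 * E j.1 i) - z ⟨i, hi⟩
      else X i with hp
    have hpg : p ᵥ* gmat A ℓ s = X := by
      funext i
      by_cases hi : s i
      · rw [stp_gmat_pos _ hi, hdiv ⟨i, hi⟩]
        congr 1
        show (if hi : s i then (∑ j : {j // ¬ s j}, v j.1 * E j.1 i) - z ⟨i, hi⟩ else X i) = _
        rw [dif_pos hi]
      · rw [stp_gmat_neg _ hi]
        show (if hi : s i then (∑ j : {j // ¬ s j}, v j.1 * E j.1 i) - z ⟨i, hi⟩ else X i) = _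
        rw [dif_neg hi]
    have hpE : p ᵥ* E = p := by
      refine stp_gmat_inj (s := s) hℓ ?_
      rw [vecMul_vecMul, h, ← vecMul_vecMul, hpg, hXE]
    refine ⟨(⟨p, hpE⟩, w), ?_⟩
    have hF : F0 (⟨p, hpE⟩, w) = v := by
      rw [F0_apply]
      show p ᵥ* gmat A ℓ s + stp_ext s w ᵥ* E' = v
      rw [hpg, hX, sub_add_cancel]
    refine Prod.ext (Subtype.ext hF) (Subtype.ext ?_)
    show ((f2 (⟨p, hpE⟩, w) : kerE ℓ ED) : {i // s i} → A) = k
    rw [e2, hF]
    show w - stp_res s v = k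
    rw [hw, add_sub_cancel_right]

theorem step_cong (ℓ : ℕ) (s : ι → Prop)
    [DecidablePred s] (E E' : Matrix ι ι A) (hE : E * E = E)
    (h : E * gmat A ℓ s = gmat A ℓ s * E') :
    MCong ℓ (E.submatrix (fun i : {i // s i} => i.1) (fun i : {i // s i} => i.1) *
        E.submatrix (fun i : {i // s i} => i.1) (fun i : {i // s i} => i.1))
      (E.submatrix (fun i : {i // s i} => i.1) (fun i : {i // s i} => i.1)) := by
  refine ⟨fun i j => -∑ k : {k // ¬ s k}, E' i.1 k.1 * E k.1 j.1, ?_⟩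
  funext i j
  show (E.submatrix (fun i : {i // s i} => i.1) (fun i : {i // s i} => i.1) *
        E.submatrix (fun i : {i // s i} => i.1) (fun i : {i // s i} => i.1)) i j - E i.1 j.1 =
    (ℓ : ℤ) • -∑ k : {k // ¬ s k}, E' i.1 k.1 * E k.1 j.1
  have h1 := congrFun (congrFun hE i.1) j.1
  rw [mul_apply, ← Fintype.sum_subtype_add_sum_subtype s (fun k => E i.1 k * E k j.1)] at h1
  rw [mul_apply, ← h1, smul_neg, Finset.smul_sum]
  have h2 : ∑ k : {k // ¬ s k}, E i.1 k.1 * E k.1 j.1 =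
      ∑ k : {k // ¬ s k}, (ℓ : ℤ) • (E' i.1 k.1 * E k.1 j.1) := by
    refine Finset.sum_congr rfl fun k _ => ?_
    rw [stp_c h i.2 k.2, smul_mul_assoc]
  rw [← h2]
  show ∑ k : {k // s k}, E i.1 k.1 * E k.1 j.1 - _ = _
  abel

end Pool.Agent.H95.KF
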