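import Pool.Agent.H95.KF.PmK
import Pool.Agent.H95.KF.Stp

/-!
# Project KF, module El: the elementary step in `K₋₁`

## Paper proof

`A = R[t, t⁻¹]`, `ℓ` is a nonzero divisor on `A` (`lau_torsion`). `D = {i // s i}`, `e := E.submatrix Subtype.val
Subtype.val` (`D × D`). `step_cong`: `e e ≡ e`, so there is `δ` with `e - e e = ℓ δ`. `step_equiv`:
`fixM E × (D → A) ≃ fixM E' × kerE ℓ e`. By `rep_fixM`, `rep_one`, `rep_pmat`, `Rep.prod`, `Rep.matEquiv`:
`MatEquiv (fromBlocks E 0 0 1) (fromBlocks E' 0 0 (pmat ℓ e δ))`, so `[E] + [1] = [E'] + [pmat ℓ e δ]` in `K0 A`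
(`K0.cls_fromBlocks`, `K0.cls_congr`). `Km1.mk` kills `[1] = K0.map cst [1]` and `[pmat ℓ e δ]` (`pmat_const`), by
`mk_cst` (`Pool/Agent/H95/KM/Lau.lean`).
-/

set_option autoImplicit false

open Matrix
open scoped LaurentPolynomial

universe u v w

namespace Pool.Agent.H95.KF

open Pool.Agent.H71.FJ Pool.Agent.H95.KM

theorem mk_step {R : Type u} [Ring R] (ℓ : ℕ) (hℓ : ∀ x : R, (ℓ : ℤ) • x = 0 → x = 0)
    {B : Type w} [Ring B] [Finite B] (π : R →+* B) (hπ : IsQuo ℓ π)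
    {ι : Type v} [Fintype ι] [DecidableEq ι] (s : ι → Prop) [DecidablePred s]
    (E E' : Matrix ι ι R[T;T⁻¹]) (hE : E * E = E) (hE' : E' * E' = E')
    (h : E * gmat R[T;T⁻¹] ℓ s = gmat R[T;T⁻¹] ℓ s * E') :
    Km1.mk (K0.cls E hE) = Km1.mk (K0.cls E' hE') := by
  have hA := lau_torsion hℓ
  set e := E.submatrix (fun i : {i // s i} => i.1) (fun i : {i // s i} => i.1) with he
  obtain ⟨Z, hZ⟩ := step_cong ℓ s E E' hE h
  have hδ : e - e * e = (ℓ : ℤ) • (-Z) := by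
    rw [smul_neg, ← hZ, neg_sub]
  obtain ⟨g⟩ := step_equiv ℓ hA s E E' hE hE' h
  have hp := rep_pmat ℓ hA e (-Z) hδ
  have hpp := hp.idem
  have key := ((rep_fixM hE).prod (rep_one (A := R[T;T⁻¹]) (ι := {i // s i}))).matEquiv
    ((rep_fixM hE').prod hp) g
  have h1 : (1 : Matrix {i // s i} {i // s i} R[T;T⁻¹]) * 1 = 1 := one_mul 1
  have h2 := K0.cls_congr (K0.fromBlocks_idem hE h1) (K0.fromBlocks_idem hE' hpp) key
  rw [K0.cls_fromBlocks hE h1, K0.cls_fromBlocks hE' hpp] at h2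
  obtain ⟨x, hx⟩ := pmat_const ℓ hℓ π hπ e (-Z) hδ hpp
  have h3 : K0.cls (1 : Matrix {i // s i} {i // s i} R[T;T⁻¹]) h1 =
      K0.map (cst R) (K0.cls (1 : Matrix {i // s i} {i // s i} R) (one_mul 1)) := by
    rw [K0.map_cls]
    apply K0.cls_congr
    rw [Matrix.map_one _ (map_zero _) (map_one _)]
    exact K0.matEquiv_refl h1
  have h4 := congrArg Km1.mk h2
  rw [map_add, map_add, hx, h3, mk_cst, mk_cst, add_zero, add_zero] at h4
  exact h4

end Pool.Agent.H95.KF
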