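import Pool.Agent.H95.KF.Win

/-!
# Project KF, module FinB: stably constant idempotent matrices over finite rings

## Paper proofs

`stConst_of_nilKer`: let `E` be an idempotent matrix over `B[t, t⁻¹]`. `E.map (lau φ)` is idempotent over
`D[t, t⁻¹]`, so `h` gives idempotent `f₀, f₁` over `D` with
`MatEquiv (fromBlocks (E.map (lau φ)) 0 0 (f₁.map cst)) (f₀.map cst)`. Lift `f₀, f₁` to idempotent matrices `F₀, F₁` over
`B` (`exists_lift_idem` in `Pool/Agent/H71/FJ/Nil.lean`). Then the matrices `fromBlocks E 0 0 (F₁.map cst)` and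
`F₀.map cst` become equivalent under `lau φ` (`lau_cst`, `Matrix.fromBlocks_map`), and `matEquiv_of_map`
with `nilKer_lau` and `lau_surjective` (`Pool/Agent/H95/KM/Lau.lean`) gives the equivalence over `B[t, t⁻¹]`.

`exists_semisimple`: `D = B ⧸ Ring.jacobson B` (two-sided ideal), `φ` the quotient map. `B` Artinian implies
`IsSemiprimaryRing B` (instance in `Mathlib/RingTheory/Artinian/Module.lean`): `D` is semisimple and the Jacobson
radical `J` is nilpotent, `J ^ N = 0`. `NilKer φ`: `J_j :=` the additive group of `Ring.jacobson B ^ j`: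
`J_0 = ⊤`, `J_N = 0`, and `x ∈ J`, `y ∈ J ^ j` implies `x y ∈ J ^ (j + 1)` (`Ideal.mul_mem_mul`, `pow_succ'`).
-/

set_option autoImplicit false

open Matrix
open scoped LaurentPolynomial

universe u v w

namespace Pool.Agent.H95.KF

open Pool.Agent.H71.FJ Pool.Agent.H95.KM

theorem stConst_of_nilKer {B : Type u} [Ring B] {D : Type v} [Ring D] (φ : B →+* D)
    (hφ : Function.Surjective φ) (hn : NilKer φ) (h : StConst.{v, w} D) :
    StConst.{u, w} B := by
  intro K _ _ E hE
  obtain ⟨I₀, I₁, i1, i2, i3, i4, f₀, f₁, hf₀, hf₁, heq⟩ :=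
    h K (E.map (lau φ)) (by rw [← Matrix.map_mul, hE])
  obtain ⟨F₀, hF₀, rfl⟩ := exists_lift_idem hφ hn f₀ hf₀
  obtain ⟨F₁, hF₁, rfl⟩ := exists_lift_idem hφ hn f₁ hf₁
  refine ⟨I₀, I₁, i1, i2, i3, i4, F₀, F₁, hF₀, hF₁, ?_⟩
  have hc : ∀ (I : Type w) (F : Matrix I I B),
      (F.map (cst B)).map (lau φ) = (F.map φ).map (cst D) := by
    intro I F
    refine Matrix.ext (fun i j => ?_)
    exact RingHom.congr_fun (lau_cst φ) (F i j)
  have hE1 : (F₁.map (cst B)) * (F₁.map (cst B)) = F₁.map (cst B) := by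
    rw [← Matrix.map_mul, hF₁]
  have hE0 : (F₀.map (cst B)) * (F₀.map (cst B)) = F₀.map (cst B) := by
    rw [← Matrix.map_mul, hF₀]
  apply matEquiv_of_map (lau_surjective hφ) (nilKer_lau hn) _ hE0 _
  · rw [fromBlocks_multiply, hE, hE1]
    simp
  · rw [fromBlocks_map, hc, hc]
    rw [Matrix.map_zero _ (map_zero (lau φ)), Matrix.map_zero _ (map_zero (lau φ))]
    exact heq

theorem exists_semisimple (B : Type u) [Ring B] [IsArtinianRing B] :
    ∃ (D : Type u) (_ : Ring D) (φ : B →+* D), IsSemisimpleRing D ∧ Function.Surjective φ ∧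
      NilKer φ := by
  have hsp : IsSemiprimaryRing B := inferInstance
  obtain ⟨N, hN⟩ := hsp.isNilpotent
  refine ⟨B ⧸ Ring.jacobson B, inferInstance, Ideal.Quotient.mk (Ring.jacobson B),
    hsp.isSemisimpleRing, Ideal.Quotient.mk_surjective, N,
    fun j => (Ring.jacobson B ^ j : Ideal B).toAddSubgroup, ?_, ?_, ?_⟩
  · intro x
    rw [Submodule.mem_toAddSubgroup, Submodule.pow_zero, Ideal.one_eq_top]
    exact Submodule.mem_top
  · intro x hx
    rw [Submodule.mem_toAddSubgroup, hN] at hx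
    exact hx
  · intro j x y hx hy
    rw [Submodule.mem_toAddSubgroup] at hy ⊢
    rw [Ideal.IsTwoSided.pow_succ]
    exact Ideal.mul_mem_mul (Ideal.Quotient.eq_zero_iff_mem.1 hx) hy

theorem stConst_finite (B : Type u) [Ring B] [Finite B] : StConst.{u, w} B := by
  obtain ⟨D, _, φ, h1, h2, h3⟩ := exists_semisimple B
  exact stConst_of_nilKer φ h2 h3 (stConst_semisimple D)

end Pool.Agent.H95.KF
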