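import Pool.Agent.H95.KM.Trans
import Pool.Agent.H71.FJ.Group

/-!
# Project KF, module Kres: the homomorphisms of `K₋₁` induced by `R → Mat_J(S)`

## Paper proofs

All this is in `Pool/Agent/H95/KM/Trans.lean` (`lm`, `pm`, `kres`, `map_kres`) for index types `J : Type`; here `J` is in an
arbitrary universe. Copy and generalise (`lm`, `lm_single`, `pm`, `lm_posHom`, `lm_negHom`, `kres`, `lau_lm`, `map_kres`).
`exists_kpush`: `klm φ` agrees with the homomorphism of the construction (equal on `single k r`, hence equal).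
`kpush_congr`: `K0.push_congr` (`Pool/Agent/H71/FJ/K0.lean`) for `klm φ`, `klm ψ` and the matrices `U.map (cst S)`,
`V.map (cst S)`; the intertwining relation need only be checked on `single k r` (both sides are additive).
`kpush_blk`: on classes of idempotent matrices `e` over `R[t, t⁻¹]`: `flat (klm ψ) e` is, after reindexing
`Fin n × (Σ i, X i) ≃ Σ i, Fin n × X i`, the block diagonal matrix of the `flat (klm (φ i)) e`; and the class of a
block diagonal matrix (over a finite index type `I`) is the sum of the classes: compare `K1.push_blk`, `cls_pushBd` in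
`Pool/Agent/H95/WH/Push.lean`, which do the same for `K₁` (there by induction on the index type / on a finset).
`K0.cls_fromBlocks`, `K0.cls_congr`, `K0.matEquiv_submatrix` are in `Pool/Agent/H71/FJ/K0.lean`. The empty index type has
class `0` (see `Trans.cls_bd`, case `zero`).
-/

set_option autoImplicit false

open Matrix
open scoped LaurentPolynomial Classical

universe u v w x

namespace Pool.Agent.H95.KF

open Pool.Agent.H71.FJ Pool.Agent.H95.KM

variable {R : Type u} [Ring R] {S : Type v} [Ring S] {T : Type w} [Ring T]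
variable {J : Type x} [Fintype J] [DecidableEq J]

private theorem kl_ext {M : Type*} [Ring M] {f g : R[T;T⁻¹] →+* M}
    (h : ∀ k r, f (AddMonoidAlgebra.single k r) = g (AddMonoidAlgebra.single k r)) : f = g := by
  apply RingHom.ext
  intro x
  induction x using AddMonoidAlgebra.induction_linear with
  | zero => rw [map_zero, map_zero]
  | add x y hx hy => rw [map_add, map_add, hx, hy]
  | single k r => exact h k r

private theorem kp_ext {M : Type*} [Ring M] {f g : Polynomial R →+* M}
    (h : ∀ k r, f (Polynomial.monomial k r) = g (Polynomial.monomial k r)) : f = g := by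
  apply RingHom.ext
  intro p
  induction p using Polynomial.induction_on' with
  | add p q hp hq => rw [map_add, map_add, hp, hq]
  | monomial k r => exact h k r

theorem exists_klm (φ : R →+* Matrix J J S) : ∃ ψ : R[T;T⁻¹] →+* Matrix J J S[T;T⁻¹],
    ∀ k r, ψ (AddMonoidAlgebra.single k r) =
      Matrix.of fun i j => AddMonoidAlgebra.single k (φ r i j) := by
  refine ⟨AddMonoidAlgebra.liftNCRingHom ((cst S).mapMatrix.comp φ)
    (((Matrix.scalar J : S[T;T⁻¹] →+* Matrix J J S[T;T⁻¹]) : S[T;T⁻¹] →* Matrix J J S[T;T⁻¹]).comp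
      (AddMonoidAlgebra.of S ℤ))
    (fun r k => by
      change (φ r).map (cst S) * Matrix.scalar J (AddMonoidAlgebra.single k.toAdd 1) =
        Matrix.scalar J (AddMonoidAlgebra.single k.toAdd 1) * (φ r).map (cst S)
      rw [Matrix.scalar_apply]
      ext1 i j
      rw [Matrix.mul_diagonal, Matrix.diagonal_mul, Matrix.map_apply, cst_apply,
        AddMonoidAlgebra.single_mul_single, AddMonoidAlgebra.single_mul_single, add_zero, zero_add,
        one_mul, mul_one]), fun k r => ?_⟩
  change AddMonoidAlgebra.liftNC _ _ _ = _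
  rw [AddMonoidAlgebra.liftNC_single]
  change (φ r).map (cst S) * Matrix.scalar J (AddMonoidAlgebra.single k 1) = _
  rw [Matrix.scalar_apply]
  ext1 i j
  rw [Matrix.mul_diagonal, Matrix.map_apply, cst_apply,
    AddMonoidAlgebra.single_mul_single, zero_add, mul_one, Matrix.of_apply]

/-- the homomorphism `R[t, t⁻¹] → Mat_J(S[t, t⁻¹])` -/
noncomputable def klm (φ : R →+* Matrix J J S) : R[T;T⁻¹] →+* Matrix J J S[T;T⁻¹] :=
  (exists_klm φ).choose

theorem klm_single (φ : R →+* Matrix J J S) (k : ℤ) (r : R) :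
    klm φ (AddMonoidAlgebra.single k r) =
      Matrix.of fun i j => AddMonoidAlgebra.single k (φ r i j) :=
  (exists_klm φ).choose_spec k r

/-- the homomorphism `R[X] → Mat_J(S[X])` -/
private noncomputable def kpm (φ : R →+* Matrix J J S) :
    Polynomial R →+* Matrix J J (Polynomial S) :=
  Polynomial.eval₂RingHom' ((Polynomial.C : S →+* Polynomial S).mapMatrix.comp φ)
    (Matrix.scalar J Polynomial.X)
    (fun r => by
      change (φ r).map Polynomial.C * Matrix.scalar J Polynomial.X =
        Matrix.scalar J Polynomial.X * (φ r).map Polynomial.C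
      rw [Matrix.scalar_apply]
      ext1 i j
      rw [Matrix.mul_diagonal, Matrix.diagonal_mul, Matrix.map_apply, Polynomial.X_mul_C])

private theorem kpm_monomial (φ : R →+* Matrix J J S) (k : ℕ) (r : R) :
    kpm φ (Polynomial.monomial k r) = Matrix.of fun i j => Polynomial.monomial k (φ r i j) := by
  change Polynomial.eval₂ _ _ _ = _
  rw [Polynomial.eval₂_monomial]
  change (φ r).map Polynomial.C * Matrix.scalar J Polynomial.X ^ k = _
  rw [← map_pow, Matrix.scalar_apply]
  ext1 i j
  rw [Matrix.mul_diagonal, Matrix.map_apply, Matrix.of_apply, Polynomial.C_mul_X_pow_eq_monomial]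

private theorem klm_posHom (φ : R →+* Matrix J J S) :
    (klm φ).comp (posHom R) = (posHom S).mapMatrix.comp (kpm φ) := by
  apply kp_ext
  intro k r
  rw [RingHom.comp_apply, RingHom.comp_apply, posHom_monomial, klm_single, kpm_monomial]
  ext1 i j
  rw [RingHom.mapMatrix_apply, Matrix.map_apply, Matrix.of_apply, Matrix.of_apply, posHom_monomial]

private theorem klm_negHom (φ : R →+* Matrix J J S) :
    (klm φ).comp (negHom R) = (negHom S).mapMatrix.comp (kpm φ) := by
  apply kp_ext
  intro k r
  rw [RingHom.comp_apply, RingHom.comp_apply, negHom_monomial, klm_single, kpm_monomial]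
  ext1 i j
  rw [RingHom.mapMatrix_apply, Matrix.map_apply, Matrix.of_apply, Matrix.of_apply, negHom_monomial]

private theorem lau_klm (f : S →+* T) (φ : R →+* Matrix J J S) :
    (lau f).mapMatrix.comp (klm φ) = klm (f.mapMatrix.comp φ) := by
  apply kl_ext
  intro k r
  rw [RingHom.comp_apply, klm_single, klm_single]
  ext1 i j
  rw [RingHom.mapMatrix_apply, Matrix.map_apply, Matrix.of_apply, Matrix.of_apply, lau_single]
  rfl

theorem exists_kpush (φ : R →+* Matrix J J S) : ∃ f : Km1 R →+ Km1 S,
    ∀ x, f (Km1.mk x) = Km1.mk (K0.push (klm φ) x) :=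
  ⟨Km1.lift (Km1.mk.comp (K0.push (klm φ)))
    (fun x => by
      rw [AddMonoidHom.comp_apply, K0.push_map, klm_posHom, ← K0.map_push, Km1.mk_pos])
    (fun x => by
      rw [AddMonoidHom.comp_apply, K0.push_map, klm_negHom, ← K0.map_push, Km1.mk_neg]),
    fun _ => rfl⟩

/-- the homomorphism `K₋₁(R) → K₋₁(S)` induced by `R → Mat_J(S)` -/
noncomputable def kpush (φ : R →+* Matrix J J S) : Km1 R →+ Km1 S := (exists_kpush φ).choose

theorem kpush_mk (φ : R →+* Matrix J J S) (x : K0 R[T;T⁻¹]) :
    kpush φ (Km1.mk x) = Km1.mk (K0.push (klm φ) x) := (exists_kpush φ).choose_spec x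

theorem map_kpush (f : S →+* T) (φ : R →+* Matrix J J S) (x : Km1 R) :
    Km1.map f (kpush φ x) = kpush (f.mapMatrix.comp φ) x := by
  obtain ⟨y, rfl⟩ := Km1.mk_surjective x
  rw [kpush_mk, kpush_mk, Km1.map_mk, K0.map_push, lau_klm]

private theorem cst_mul_single {ι κ l : Type*} [Fintype κ] (U : Matrix ι κ S) (M : Matrix κ l S)
    (k : ℤ) : U.map (cst S) * (Matrix.of fun i j => AddMonoidAlgebra.single k (M i j)) =
      Matrix.of fun i j => AddMonoidAlgebra.single k ((U * M) i j) := by
  ext1 i j
  rw [Matrix.mul_apply, Matrix.of_apply, Matrix.mul_apply]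
  change _ = AddMonoidAlgebra.singleAddHom k (∑ d, U i d * M d j)
  rw [map_sum]
  refine Finset.sum_congr rfl fun d _ => ?_
  rw [Matrix.map_apply, Matrix.of_apply, cst_apply, AddMonoidAlgebra.single_mul_single, zero_add]
  rfl

private theorem single_mul_cst {ι κ l : Type*} [Fintype κ] (M : Matrix ι κ S) (U : Matrix κ l S)
    (k : ℤ) : (Matrix.of fun i j => AddMonoidAlgebra.single k (M i j)) * U.map (cst S) =
      Matrix.of fun i j => AddMonoidAlgebra.single k ((M * U) i j) := by
  ext1 i j
  rw [Matrix.mul_apply, Matrix.of_apply, Matrix.mul_apply]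
  change _ = AddMonoidAlgebra.singleAddHom k (∑ d, M i d * U d j)
  rw [map_sum]
  refine Finset.sum_congr rfl fun d _ => ?_
  rw [Matrix.map_apply, Matrix.of_apply, cst_apply, AddMonoidAlgebra.single_mul_single, add_zero]
  rfl

theorem kpush_congr {J' : Type*} [Fintype J'] [DecidableEq J'] (φ : R →+* Matrix J J S)
    (ψ : R →+* Matrix J' J' S) (U : Matrix J J' S) (V : Matrix J' J S) (hUV : U * V = 1)
    (hVU : V * U = 1) (h : ∀ r, φ r * U = U * ψ r) (x : Km1 R) : kpush φ x = kpush ψ x := by
  obtain ⟨y, rfl⟩ := Km1.mk_surjective x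
  rw [kpush_mk, kpush_mk]
  congr 1
  refine K0.push_congr (klm φ) (klm ψ) (U.map (cst S)) (V.map (cst S)) ?_ ?_ ?_ y
  · rw [← Matrix.map_mul, hUV, Matrix.map_one _ (map_zero _) (map_one _)]
  · rw [← Matrix.map_mul, hVU, Matrix.map_one _ (map_zero _) (map_one _)]
  · intro r
    induction r using AddMonoidAlgebra.induction_linear with
    | zero => rw [map_zero, map_zero, Matrix.mul_zero, Matrix.zero_mul]
    | add a b ha hb => rw [map_add, map_add, Matrix.mul_add, Matrix.add_mul, ha, hb]
    | single k r => rw [klm_single, klm_single, cst_mul_single, single_mul_cst, h]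

/-! ### Block diagonal homomorphisms -/

private theorem kcls_zero {ι : Type*} [Fintype ι] [DecidableEq ι]
    (h : (0 : Matrix ι ι S) * 0 = 0) : K0.cls (0 : Matrix ι ι S) h = 0 := by
  have h2 : K0.cls (0 : Matrix ι ι S) h + K0.cls (0 : Matrix ι ι S) h = K0.cls 0 h := by
    rw [← K0.cls_fromBlocks]
    apply K0.cls_congr
    refine ⟨0, 0, ?_, ?_⟩
    · rw [Matrix.zero_mul]
      exact Matrix.fromBlocks_zero.symm
    · rw [Matrix.zero_mul]
  simpa using h2

private theorem kcls_eq {ι : Type*} [Fintype ι] [DecidableEq ι] {e f : Matrix ι ι S}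
    (he : e * e = e) (hf : f * f = f) (h : e = f) : K0.cls e he = K0.cls f hf := by
  subst h
  rfl

private theorem kadd_idem {ι : Type*} [Fintype ι] {e f : Matrix ι ι S} (he : e * e = e)
    (hf : f * f = f) (hef : e * f = 0) (hfe : f * e = 0) : (e + f) * (e + f) = e + f := by
  rw [Matrix.add_mul, Matrix.mul_add, Matrix.mul_add, he, hf, hef, hfe, add_zero, zero_add]

/-- the class of a sum of two orthogonal idempotents -/
private theorem kcls_add {ι : Type*} [Fintype ι] [DecidableEq ι] {e f : Matrix ι ι S}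
    (he : e * e = e) (hf : f * f = f) (hef : e * f = 0) (hfe : f * e = 0)
    (hs : (e + f) * (e + f) = e + f) : K0.cls (e + f) hs = K0.cls e he + K0.cls f hf := by
  rw [← K0.cls_fromBlocks]
  apply K0.cls_congr
  apply K0.matEquiv_symm
  refine ⟨Matrix.fromRows e f, Matrix.fromCols e f, ?_, ?_⟩
  · rw [Matrix.fromRows_mul_fromCols, he, hf, hef, hfe]
  · rw [Matrix.fromCols_mul_fromRows, he, hf]

private theorem kcls_sum {ι I : Type*} [Fintype ι] [DecidableEq ι] [DecidableEq I]
    (P : I → Matrix ι ι S) (hP : ∀ i, P i * P i = P i) (hPP : ∀ i j, i ≠ j → P i * P j = 0)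
    (s : Finset I) : ∃ h : (∑ i ∈ s, P i) * (∑ i ∈ s, P i) = ∑ i ∈ s, P i,
      K0.cls (∑ i ∈ s, P i) h = ∑ i ∈ s, K0.cls (P i) (hP i) := by
  induction s using Finset.induction_on with
  | empty =>
    refine ⟨by rw [Finset.sum_empty, Matrix.zero_mul], ?_⟩
    rw [kcls_eq _ (Matrix.zero_mul 0) Finset.sum_empty, kcls_zero, Finset.sum_empty]
  | insert a s ha ih =>
    obtain ⟨h, ih⟩ := ih
    have h1 : P a * ∑ i ∈ s, P i = 0 := by
      rw [Finset.mul_sum]
      exact Finset.sum_eq_zero fun i hi => hPP a i (fun e => ha (e ▸ hi))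
    have h2 : (∑ i ∈ s, P i) * P a = 0 := by
      rw [Finset.sum_mul]
      exact Finset.sum_eq_zero fun i hi => hPP i a (fun e => ha (e ▸ hi))
    have h3 := kadd_idem (hP a) h h1 h2
    have h4 : ∑ i ∈ insert a s, P i = P a + ∑ i ∈ s, P i := Finset.sum_insert ha
    refine ⟨by rw [h4, h3], ?_⟩
    rw [kcls_eq _ h3 h4, kcls_add (hP a) h h1 h2, ih, Finset.sum_insert ha]

section Blk

variable {I : Type*} [Fintype I] [DecidableEq I] {X : I → Type*} [∀ i, Fintype (X i)]
  [∀ i, DecidableEq (X i)]

omit [∀ i, DecidableEq (X i)] in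
private theorem kblk_single_mul (e : ∀ i, Matrix (X i) (X i) S) (he : ∀ i, e i * e i = e i)
    (i : I) : blockDiagonal' (Pi.single i (e i)) * blockDiagonal' (Pi.single i (e i)) =
      blockDiagonal' (Pi.single i (e i)) := by
  rw [← Matrix.blockDiagonal'_mul]
  congr 1
  funext j
  by_cases hij : j = i
  · subst hij
    rw [Pi.single_eq_same, he]
  · rw [Pi.single_eq_of_ne hij, Matrix.zero_mul]

private theorem kcls_single (e : ∀ i, Matrix (X i) (X i) S) (he : ∀ i, e i * e i = e i) (i : I) :
    K0.cls (blockDiagonal' (Pi.single i (e i)) : Matrix (Σ i, X i) (Σ i, X i) S)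
      (kblk_single_mul e he i) = K0.cls (e i) (he i) := by
  apply K0.cls_congr
  refine ⟨(blockDiagonal' (Pi.single i (e i))).submatrix id (fun b => (⟨i, b⟩ : Σ i, X i)),
    (blockDiagonal' (Pi.single i (e i))).submatrix (fun b => (⟨i, b⟩ : Σ i, X i)) id, ?_, ?_⟩
  · ext1 ⟨j, a⟩ ⟨k, b⟩
    rw [Matrix.mul_apply]
    simp only [Matrix.submatrix_apply, id_eq]
    by_cases hj : j = i
    · subst hj
      by_cases hk : j = k
      · subst hk
        simp only [Matrix.blockDiagonal'_apply_eq, Pi.single_eq_same]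
        have := congrFun (congrFun (he j) a) b
        rwa [Matrix.mul_apply] at this
      · simp only [Matrix.blockDiagonal'_apply_ne _ _ _ hk, mul_zero, Finset.sum_const_zero]
    · simp only [Matrix.blockDiagonal'_apply_ne _ _ _ hj, zero_mul, Finset.sum_const_zero]
      by_cases hk : j = k
      · subst hk
        rw [Matrix.blockDiagonal'_apply_eq, Pi.single_eq_of_ne hj]
        rfl
      · rw [Matrix.blockDiagonal'_apply_ne _ _ _ hk]
  · ext1 a b
    rw [Matrix.mul_apply, Fintype.sum_sigma]
    simp only [Matrix.submatrix_apply, id_eq]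
    rw [Finset.sum_eq_single i]
    · simp only [Matrix.blockDiagonal'_apply_eq, Pi.single_eq_same]
      have := congrFun (congrFun (he i) a) b
      rwa [Matrix.mul_apply] at this
    · intro j _ hj
      simp only [Matrix.blockDiagonal'_apply_ne _ _ _ hj, mul_zero, Finset.sum_const_zero]
    · intro h
      exact absurd (Finset.mem_univ _) h

omit [∀ i, Fintype (X i)] [∀ i, DecidableEq (X i)] in
private theorem kblk_sum (e : ∀ i, Matrix (X i) (X i) S) :
    (∑ i, blockDiagonal' (Pi.single i (e i)) : Matrix (Σ i, X i) (Σ i, X i) S) =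
      blockDiagonal' e := by
  ext1 ⟨j, a⟩ ⟨k, b⟩
  rw [Matrix.sum_apply]
  by_cases hk : j = k
  · subst hk
    simp only [Matrix.blockDiagonal'_apply_eq]
    rw [Finset.sum_eq_single j]
    · rw [Pi.single_eq_same]
    · intro i _ hi
      rw [Pi.single_eq_of_ne hi.symm]
      rfl
    · intro h
      exact absurd (Finset.mem_univ _) h
  · simp only [Matrix.blockDiagonal'_apply_ne _ _ _ hk, Finset.sum_const_zero]

private theorem kcls_blk (e : ∀ i, Matrix (X i) (X i) S) (he : ∀ i, e i * e i = e i)
    (hb : (blockDiagonal' e : Matrix (Σ i, X i) (Σ i, X i) S) * blockDiagonal' e =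
      blockDiagonal' e) : K0.cls (blockDiagonal' e) hb = ∑ i, K0.cls (e i) (he i) := by
  obtain ⟨h, h2⟩ := kcls_sum
    (fun i => (blockDiagonal' (Pi.single i (e i)) : Matrix (Σ i, X i) (Σ i, X i) S))
    (fun i => kblk_single_mul e he i) (fun i j hij => by
      rw [← Matrix.blockDiagonal'_mul]
      refine Eq.trans (congrArg _ ?_) Matrix.blockDiagonal'_zero
      funext l
      by_cases hl : l = i
      · subst hl
        rw [Pi.single_eq_of_ne hij, Matrix.mul_zero]
        rfl
      · rw [Pi.single_eq_of_ne hl, Matrix.zero_mul]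
        rfl) Finset.univ
  rw [← kcls_eq h hb (kblk_sum e), h2]
  exact Finset.sum_congr rfl fun i _ => kcls_single e he i

omit [Fintype I] in
private theorem klm_blk [Fintype (Σ i, X i)] [DecidableEq (Σ i, X i)]
    (φ : ∀ i, R →+* Matrix (X i) (X i) S) (ψ : R →+* Matrix (Σ i, X i) (Σ i, X i) S)
    (h : ∀ r, ψ r = blockDiagonal' fun i => φ i r) (r : R[T;T⁻¹]) :
    klm ψ r = blockDiagonal' fun i => klm (φ i) r := by
  induction r using AddMonoidAlgebra.induction_linear with
  | zero =>
    simp only [map_zero]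
    exact (Matrix.blockDiagonal'_zero).symm
  | add a b ha hb =>
    simp only [map_add]
    rw [ha, hb]
    exact (Matrix.blockDiagonal'_add _ _).symm
  | single k r =>
    rw [klm_single]
    ext1 ⟨i, a⟩ ⟨j, b⟩
    rw [Matrix.of_apply, h]
    by_cases hij : i = j
    · subst hij
      rw [Matrix.blockDiagonal'_apply_eq, Matrix.blockDiagonal'_apply_eq, klm_single,
        Matrix.of_apply]
    · rw [Matrix.blockDiagonal'_apply_ne _ _ _ hij, Matrix.blockDiagonal'_apply_ne _ _ _ hij,
        AddMonoidAlgebra.single_zero]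

private theorem kpush_blk_aux [Fintype (Σ i, X i)] [DecidableEq (Σ i, X i)]
    (φ : ∀ i, R →+* Matrix (X i) (X i) S) (ψ : R →+* Matrix (Σ i, X i) (Σ i, X i) S)
    (h : ∀ r, ψ r = blockDiagonal' fun i => φ i r) (x : K0 R) :
    K0.push ψ x = ∑ i, K0.push (φ i) x := by
  have key : K0.push ψ = ∑ i, K0.push (φ i) := by
    apply K0.hom_ext
    intro a
    rw [AddMonoidHom.finsetSum_apply, K0.push_mk]
    simp only [K0.push_mk]
    have hidem : ∀ i, K0.flat (φ i) a.mat * K0.flat (φ i) a.mat = K0.flat (φ i) a.mat :=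
      fun i => K0.flat_idem (φ i) a.idem
    have hb : (blockDiagonal' (fun i => K0.flat (φ i) a.mat) :
        Matrix (Σ i, Fin a.n × X i) (Σ i, Fin a.n × X i) S) *
          blockDiagonal' (fun i => K0.flat (φ i) a.mat) =
          blockDiagonal' (fun i => K0.flat (φ i) a.mat) := by
      rw [← Matrix.blockDiagonal'_mul]
      exact congrArg _ (funext hidem)
    rw [← kcls_blk (X := fun i => Fin a.n × X i) (fun i => K0.flat (φ i) a.mat) hidem hb]
    let e : (Σ i, Fin a.n × X i) ≃ Fin a.n × (Σ i, X i) :=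
      { toFun := fun y => (y.2.1, ⟨y.1, y.2.2⟩)
        invFun := fun x => ⟨x.2.1, (x.1, x.2.2)⟩
        left_inv := fun x => rfl
        right_inv := fun x => rfl }
    have he : (blockDiagonal' (fun i => K0.flat (φ i) a.mat) :
        Matrix (Σ i, Fin a.n × X i) (Σ i, Fin a.n × X i) S) =
          (K0.flat ψ a.mat).submatrix e e := by
      ext1 ⟨i, p, c⟩ ⟨j, q, d⟩
      change _ = ψ (a.mat p q) ⟨i, c⟩ ⟨j, d⟩
      rw [h]
      by_cases hij : i = j
      · subst hij
        rw [Matrix.blockDiagonal'_apply_eq, Matrix.blockDiagonal'_apply_eq]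
        rfl
      · rw [Matrix.blockDiagonal'_apply_ne _ _ _ hij, Matrix.blockDiagonal'_apply_ne _ _ _ hij]
    apply K0.cls_congr
    apply K0.matEquiv_symm
    rw [he]
    exact K0.matEquiv_submatrix _ (K0.flat_idem ψ a.idem) e
  rw [key, AddMonoidHom.finsetSum_apply]

end Blk

theorem kpush_blk {I : Type*} [Fintype I] [DecidableEq I] {X : I → Type*} [∀ i, Fintype (X i)]
    [∀ i, DecidableEq (X i)] [Fintype (Σ i, X i)] [DecidableEq (Σ i, X i)]
    (φ : ∀ i, R →+* Matrix (X i) (X i) S) (ψ : R →+* Matrix (Σ i, X i) (Σ i, X i) S)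
    (h : ∀ r, ψ r = blockDiagonal' fun i => φ i r) (x : Km1 R) :
    kpush ψ x = ∑ i, kpush (φ i) x := by
  obtain ⟨y, rfl⟩ := Km1.mk_surjective x
  rw [kpush_mk, kpush_blk_aux (fun i => klm (φ i)) (klm ψ) (klm_blk φ ψ h), map_sum]
  exact Finset.sum_congr rfl fun i _ => (kpush_mk (φ i) y).symm

end Pool.Agent.H95.KF
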