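import Pool.Agent.H95.KF.Rep

/-!
# Project KF, module Pm: the idempotent matrix of the module `kerE ℓ e`

## Paper proofs

`pmat_map`: a ring homomorphism commutes with everything (`Matrix.fromBlocks_map`, `Matrix.map_mul`, ...).

`rep_pmat`: here `e - e e = ℓ δ` and `ℓ` is a nonzero divisor. `δ` commutes with `e` (multiply by `ℓ`).
`2 - e` is written as `1 + (1 - e)`.
`K = kerE ℓ e = {v | v e ∈ ℓ A^ι}`. For `v ∈ K` let `ν v` be the unique `w` with `v e = ℓ w`; `ν : K → A^ι` is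
`A`-linear (uniqueness). Put
`i v = Sum.elim (v (1 - e)) (ν v + v δ)`, `r (Sum.elim u w) = u (1 - e) + ℓ w`.
* `r` has values in `K`: `(u (1 - e) + ℓ w) e = ℓ (u δ + w e)`, so `ν (r (u, w)) = u δ + w e`.
* `r (i v) = v (1 - e) (1 - e) + ℓ (ν v) + ℓ (v δ) = v (1 - 2 e + e e + e + e - e e) = v`.
* `i (r (u, w))`, with `v = r (u, w) = u (1 - e) + ℓ w`: the first component is
  `u (1 - e)(1 - e) + ℓ w (1 - e)`; the second one is `ν v + v δ = u δ + w e + u (1 - e) δ + ℓ w δ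
  = u δ (1 + (1 - e)) + w (e + (e - e e)) = u δ (1 + (1 - e)) + w (e (1 + (1 - e)))`.
  This is `(u, w) ᵥ* pmat ℓ e δ`.
-/

set_option autoImplicit false

open Matrix

universe u v w

namespace Pool.Agent.H95.KF

open Pool.Agent.H71.FJ

variable {A : Type u} [Ring A] {ι : Type*} [Fintype ι] [DecidableEq ι]

theorem pmat_map {A' : Type w} [Ring A'] (f : A →+* A') (ℓ : ℕ) (e δ : Matrix ι ι A) :
    (pmat ℓ e δ).map f = pmat ℓ (e.map f) (δ.map f) := by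
  have hm : ∀ M : Matrix ι ι A, M.map f = f.mapMatrix M := fun _ => rfl
  unfold pmat
  rw [Matrix.fromBlocks_map]
  simp only [hm, map_mul, map_sub, map_add, map_one, map_zsmul]

theorem rep_pmat (ℓ : ℕ) (hℓ : ∀ x : A, (ℓ : ℤ) • x = 0 → x = 0) (e δ : Matrix ι ι A)
    (h : e - e * e = (ℓ : ℤ) • δ) : Rep (pmat ℓ e δ) (kerE ℓ e) := by
  have hinj : ∀ v w : ι → A, (ℓ : ℤ) • v = (ℓ : ℤ) • w → v = w := by
    intro v w hvw
    funext i
    have h1 : (ℓ : ℤ) • v i = (ℓ : ℤ) • w i := congrFun hvw i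
    exact sub_eq_zero.mp (hℓ (v i - w i) (by rw [smul_sub, h1, sub_self]))
  have hcomm : e * δ = δ * e := by
    have h1 : (ℓ : ℤ) • (e * δ - δ * e) = 0 := by
      rw [smul_sub, ← Matrix.mul_smul, ← Matrix.smul_mul, ← h]
      noncomm_ring
    apply sub_eq_zero.mp
    ext i j
    exact hℓ _ (congrFun (congrFun h1 i) j)
  let nf : kerE ℓ e → (ι → A) := fun v => Classical.choose v.2
  have hν : ∀ v : kerE ℓ e, (v : ι → A) ᵥ* e = (ℓ : ℤ) • nf v :=
    fun v => Classical.choose_spec v.2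
  have hνu : ∀ (v : kerE ℓ e) (w : ι → A), (v : ι → A) ᵥ* e = (ℓ : ℤ) • w → nf v = w :=
    fun v w hw => hinj _ _ ((hν v).symm.trans hw)
  have hνadd : ∀ v w : kerE ℓ e, nf (v + w) = nf v + nf w := by
    intro v w
    apply hνu
    rw [Submodule.coe_add, add_vecMul, hν, hν, smul_add]
  have hνsmul : ∀ (c : A) (v : kerE ℓ e), nf (c • v) = c • nf v := by
    intro c v
    apply hνu
    rw [Submodule.coe_smul, smul_vecMul, hν]
    exact smul_comm _ _ _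
  have hmem : ∀ u w : ι → A, (u ᵥ* (1 - e) + (ℓ : ℤ) • w) ᵥ* e =
      (ℓ : ℤ) • (u ᵥ* δ + w ᵥ* e) := by
    intro u w
    have h1 : (1 - e) * e = (ℓ : ℤ) • δ := by rw [← h]; noncomm_ring
    rw [add_vecMul, vecMul_vecMul, h1, vecMul_smul, smul_vecMul, smul_add]
  have hadd : ∀ v w : kerE ℓ e,
      Sum.elim (((v + w : kerE ℓ e) : ι → A) ᵥ* (1 - e))
        (nf (v + w) + ((v + w : kerE ℓ e) : ι → A) ᵥ* δ) =
      Sum.elim ((v : ι → A) ᵥ* (1 - e)) (nf v + (v : ι → A) ᵥ* δ) +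
        Sum.elim ((w : ι → A) ᵥ* (1 - e)) (nf w + (w : ι → A) ᵥ* δ) := by
    intro v w
    rw [hνadd, Submodule.coe_add, add_vecMul, add_vecMul]
    funext x
    rcases x with x | x
    · simp only [Sum.elim_inl, Pi.add_apply]
    · simp only [Sum.elim_inr, Pi.add_apply]
      abel
  have hsm : ∀ (c : A) (v : kerE ℓ e),
      Sum.elim (((c • v : kerE ℓ e) : ι → A) ᵥ* (1 - e))
        (nf (c • v) + ((c • v : kerE ℓ e) : ι → A) ᵥ* δ) =
      c • Sum.elim ((v : ι → A) ᵥ* (1 - e)) (nf v + (v : ι → A) ᵥ* δ) := by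
    intro c v
    rw [hνsmul, Submodule.coe_smul, smul_vecMul, smul_vecMul]
    funext x
    rcases x with x | x
    · simp only [Sum.elim_inl, Pi.smul_apply]
    · simp only [Sum.elim_inr, Pi.smul_apply, Pi.add_apply, smul_add]
  let i : kerE ℓ e →ₗ[A] (ι ⊕ ι → A) :=
    { toFun := fun v => Sum.elim ((v : ι → A) ᵥ* (1 - e)) (nf v + (v : ι → A) ᵥ* δ)
      map_add' := hadd
      map_smul' := hsm }
  let r : (ι ⊕ ι → A) →ₗ[A] kerE ℓ e :=
    { toFun := fun x => ⟨(x ∘ Sum.inl) ᵥ* (1 - e) + (ℓ : ℤ) • (x ∘ Sum.inr),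
        ⟨_, hmem (x ∘ Sum.inl) (x ∘ Sum.inr)⟩⟩
      map_add' := fun x y => by
        apply Subtype.ext
        change ((x + y) ∘ Sum.inl) ᵥ* (1 - e) + (ℓ : ℤ) • ((x + y) ∘ Sum.inr) =
          ((x ∘ Sum.inl) ᵥ* (1 - e) + (ℓ : ℤ) • (x ∘ Sum.inr)) +
            ((y ∘ Sum.inl) ᵥ* (1 - e) + (ℓ : ℤ) • (y ∘ Sum.inr))
        rw [show (x + y) ∘ Sum.inl = x ∘ Sum.inl + y ∘ Sum.inl from rfl,
          show (x + y) ∘ Sum.inr = x ∘ Sum.inr + y ∘ Sum.inr from rfl, add_vecMul, smul_add]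
        abel
      map_smul' := fun c x => by
        apply Subtype.ext
        change ((c • x) ∘ Sum.inl) ᵥ* (1 - e) + (ℓ : ℤ) • ((c • x) ∘ Sum.inr) =
          c • ((x ∘ Sum.inl) ᵥ* (1 - e) + (ℓ : ℤ) • (x ∘ Sum.inr))
        rw [show (c • x) ∘ Sum.inl = c • (x ∘ Sum.inl) from rfl,
          show (c • x) ∘ Sum.inr = c • (x ∘ Sum.inr) from rfl, smul_vecMul, smul_add,
          smul_comm (ℓ : ℤ) c] }
  refine ⟨i, r, fun v => ?_, fun x => ?_⟩
  · apply Subtype.ext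
    change ((v : ι → A) ᵥ* (1 - e)) ᵥ* (1 - e) + (ℓ : ℤ) • (nf v + (v : ι → A) ᵥ* δ) = (v : ι → A)
    rw [smul_add, ← hν, ← vecMul_smul, ← h, vecMul_vecMul, ← vecMul_add, ← vecMul_add]
    have h1 : (1 - e) * (1 - e) + (e + (e - e * e)) = 1 := by noncomm_ring
    rw [h1, vecMul_one]
  · have h2 : nf (r x) = (x ∘ Sum.inl) ᵥ* δ + (x ∘ Sum.inr) ᵥ* e :=
      hνu _ _ (hmem (x ∘ Sum.inl) (x ∘ Sum.inr))
    change Sum.elim (((x ∘ Sum.inl) ᵥ* (1 - e) + (ℓ : ℤ) • (x ∘ Sum.inr)) ᵥ* (1 - e))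
      (nf (r x) + ((x ∘ Sum.inl) ᵥ* (1 - e) + (ℓ : ℤ) • (x ∘ Sum.inr)) ᵥ* δ) = _
    rw [h2]
    unfold pmat
    rw [vecMul_fromBlocks]
    congr 1
    · rw [add_vecMul, vecMul_vecMul, smul_vecMul, ← vecMul_smul]
    · have h3 : (1 - e) * δ = δ * (1 - e) := by
        rw [sub_mul, mul_sub, one_mul, mul_one, hcomm]
      rw [add_vecMul, vecMul_vecMul, smul_vecMul, ← vecMul_smul, ← h, h3, mul_add, mul_add,
        mul_one, mul_one, vecMul_add, vecMul_add]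
      have h4 : e * (1 - e) = e - e * e := by noncomm_ring
      rw [h4]
      abel

end Pool.Agent.H95.KF
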