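import Pool.Agent.H95.KF.Defs

/-!
# Project KF, module Sch: the modules `kerE` and equivalence modulo `ℓ`

## Paper proofs

`kerE_congr` (Schanuel): `K(e) = {v | v e ≡ 0}`, congruences modulo `ℓ`; `x y ≡ e`, `y x ≡ f`, `e e ≡ e`, `f f ≡ f`.
The map `K(e) × A^κ → K(f) × A^ι`, `(k, w) ↦ (w - v x, v)` with `v := k + w y`. It is well defined:
`(w - v x) f ≡ w f - k x f - w y x f ≡ w f - k x f - w f f ≡ - k x f ≡ - k x y x ≡ - (k e) x ≡ 0`.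
The inverse: `(k', v) ↦ (v - w y, w)` with `w := k' + v x`; `(v - w y) e ≡ v e - k' y e - v x y e ≡ - k' y e
≡ - k' y x y ≡ - (k' f) y ≡ 0`. These maps are mutually inverse: starting with `(k, w)`:
`w' = (w - v x) + v x = w`, `v - w y = k`.
(Congruence of vectors: `∃ z, a - b = (ℓ : ℤ) • z`; if `X ≡ Y` (`MCong`) then `v X ≡ v Y`; products of congruent
matrices are congruent. `LinearEquiv` can be built from two linear maps, `LinearEquiv.ofLinear`, or from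
`toFun`/`invFun`.)

`kerE_blocks`: `v ↦ (v ∘ inl, v ∘ inr)`; `v (fromBlocks e 0 0 f) = Sum.elim ((v ∘ inl) e) ((v ∘ inr) f)`.
-/

set_option autoImplicit false

open Matrix

universe u v w

namespace Pool.Agent.H95.KF

open Pool.Agent.H71.FJ

variable {A : Type u} [Ring A] {ι : Type*} [Fintype ι] [DecidableEq ι] {κ : Type*} [Fintype κ]
  [DecidableEq κ]

/-- divisibility of a vector by `ℓ` -/
private def DvS (ℓ : ℕ) {ι : Type*} (v : ι → A) : Prop := ∃ w : ι → A, v = (ℓ : ℤ) • w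

private theorem DvS.add {ℓ : ℕ} {ι : Type*} {v w : ι → A} (hv : DvS ℓ v) (hw : DvS ℓ w) :
    DvS ℓ (v + w) := by
  obtain ⟨a, rfl⟩ := hv
  obtain ⟨b, rfl⟩ := hw
  exact ⟨a + b, (smul_add _ _ _).symm⟩

private theorem DvS.sub {ℓ : ℕ} {ι : Type*} {v w : ι → A} (hv : DvS ℓ v) (hw : DvS ℓ w) :
    DvS ℓ (v - w) := by
  obtain ⟨a, rfl⟩ := hv
  obtain ⟨b, rfl⟩ := hw
  exact ⟨a - b, (smul_sub _ _ _).symm⟩

private theorem zsmul_vecMulS {ι κ : Type*} [Fintype ι] (n : ℤ) (v : ι → A) (M : Matrix ι κ A) :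
    (n • v) ᵥ* M = n • (v ᵥ* M) := by
  funext j
  simp only [vecMul, dotProduct, Pi.smul_apply, Finset.smul_sum]
  exact Finset.sum_congr rfl fun i _ => smul_mul_assoc n (v i) (M i j)

private theorem vecMul_zsmulS {ι κ : Type*} [Fintype ι] (n : ℤ) (v : ι → A) (M : Matrix ι κ A) :
    v ᵥ* (n • M) = n • (v ᵥ* M) := by
  funext j
  simp only [vecMul, dotProduct, Pi.smul_apply, Matrix.smul_apply, Finset.smul_sum]
  exact Finset.sum_congr rfl fun i _ => mul_smul_comm n (v i) (M i j)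

private theorem DvS.vecMul {ℓ : ℕ} {ι κ : Type*} [Fintype ι] {v : ι → A} (hv : DvS ℓ v)
    (M : Matrix ι κ A) : DvS ℓ (v ᵥ* M) := by
  obtain ⟨a, rfl⟩ := hv
  exact ⟨a ᵥ* M, zsmul_vecMulS _ _ _⟩

private theorem DvS.of_cong {ℓ : ℕ} {ι κ : Type*} [Fintype ι] {X Y : Matrix ι κ A}
    (h : MCong ℓ X Y) (v : ι → A) : DvS ℓ (v ᵥ* X - v ᵥ* Y) := by
  obtain ⟨Z, hZ⟩ := h
  refine ⟨v ᵥ* Z, ?_⟩
  rw [← vecMul_sub, hZ, vecMul_zsmulS]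

private theorem sch_mem {ι κ : Type*} [Fintype ι] [Fintype κ] {ℓ : ℕ} {e : Matrix ι ι A}
    {f : Matrix κ κ A} {x : Matrix ι κ A} {y : Matrix κ ι A} (hf : MCong ℓ (f * f) f)
    (hxy : MCong ℓ (x * y) e) (hyx : MCong ℓ (y * x) f) (k : kerE ℓ e) (w : κ → A) :
    w - (k.1 + w ᵥ* y) ᵥ* x ∈ kerE ℓ f := by
  have hk : DvS ℓ (k.1 ᵥ* e) := k.2
  have h1 : DvS ℓ (w ᵥ* (f * f) - w ᵥ* f) := DvS.of_cong hf w
  have h2 : DvS ℓ ((w ᵥ* (y * x) - w ᵥ* f) ᵥ* f) := (DvS.of_cong hyx w).vecMul f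
  have h3 : DvS ℓ ((k.1 ᵥ* x) ᵥ* (y * x) - (k.1 ᵥ* x) ᵥ* f) := DvS.of_cong hyx _
  have h4 : DvS ℓ ((k.1 ᵥ* (x * y) - k.1 ᵥ* e) ᵥ* x) := (DvS.of_cong hxy k.1).vecMul x
  have h5 : DvS ℓ ((k.1 ᵥ* e) ᵥ* x) := hk.vecMul x
  have h : DvS ℓ (((k.1 ᵥ* x) ᵥ* (y * x) - (k.1 ᵥ* x) ᵥ* f) -
      ((k.1 ᵥ* (x * y) - k.1 ᵥ* e) ᵥ* x + (k.1 ᵥ* e) ᵥ* x) -
      ((w ᵥ* (y * x) - w ᵥ* f) ᵥ* f + (w ᵥ* (f * f) - w ᵥ* f))) :=
    (h3.sub (h4.add h5)).sub (h2.add h1)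
  obtain ⟨z, hz⟩ := h
  refine ⟨z, ?_⟩
  rw [← hz]
  simp only [sub_vecMul, add_vecMul, vecMul_vecMul, Matrix.mul_assoc]
  abel

theorem kerE_congr (ℓ : ℕ) (e : Matrix ι ι A) (f : Matrix κ κ A) (x : Matrix ι κ A)
    (y : Matrix κ ι A) (he : MCong ℓ (e * e) e) (hf : MCong ℓ (f * f) f)
    (hxy : MCong ℓ (x * y) e) (hyx : MCong ℓ (y * x) f) :
    Nonempty ((kerE ℓ e × (κ → A)) ≃ₗ[A] (kerE ℓ f × (ι → A))) := by
  refine ⟨{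
    toFun := fun p => (⟨p.2 - (p.1.1 + p.2 ᵥ* y) ᵥ* x, sch_mem hf hxy hyx p.1 p.2⟩,
      p.1.1 + p.2 ᵥ* y)
    map_add' := fun p q => ?_
    map_smul' := fun c p => ?_
    invFun := fun p => (⟨p.2 - (p.1.1 + p.2 ᵥ* x) ᵥ* y, sch_mem he hyx hxy p.1 p.2⟩,
      p.1.1 + p.2 ᵥ* x)
    left_inv := fun p => ?_
    right_inv := fun p => ?_ }⟩
  · refine Prod.ext (Subtype.ext ?_) ?_
    · change (p.2 + q.2) - ((p.1.1 + q.1.1) + (p.2 + q.2) ᵥ* y) ᵥ* x =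
        (p.2 - (p.1.1 + p.2 ᵥ* y) ᵥ* x) + (q.2 - (q.1.1 + q.2 ᵥ* y) ᵥ* x)
      simp only [add_vecMul]
      abel
    · change (p.1.1 + q.1.1) + (p.2 + q.2) ᵥ* y = (p.1.1 + p.2 ᵥ* y) + (q.1.1 + q.2 ᵥ* y)
      simp only [add_vecMul]
      abel
  · refine Prod.ext (Subtype.ext ?_) ?_
    · change c • p.2 - (c • p.1.1 + (c • p.2) ᵥ* y) ᵥ* x = c • (p.2 - (p.1.1 + p.2 ᵥ* y) ᵥ* x)
      simp only [add_vecMul, smul_vecMul, smul_sub, smul_add]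
    · change c • p.1.1 + (c • p.2) ᵥ* y = c • (p.1.1 + p.2 ᵥ* y)
      simp only [smul_vecMul, smul_add]
  · refine Prod.ext (Subtype.ext ?_) ?_
    · change (p.1.1 + p.2 ᵥ* y) - ((p.2 - (p.1.1 + p.2 ᵥ* y) ᵥ* x) +
        (p.1.1 + p.2 ᵥ* y) ᵥ* x) ᵥ* y = p.1.1
      rw [sub_add_cancel, add_sub_cancel_right]
    · change (p.2 - (p.1.1 + p.2 ᵥ* y) ᵥ* x) + (p.1.1 + p.2 ᵥ* y) ᵥ* x = p.2
      rw [sub_add_cancel]
  · refine Prod.ext (Subtype.ext ?_) ?_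
    · change (p.1.1 + p.2 ᵥ* x) - ((p.2 - (p.1.1 + p.2 ᵥ* x) ᵥ* y) +
        (p.1.1 + p.2 ᵥ* x) ᵥ* y) ᵥ* x = p.1.1
      rw [sub_add_cancel, add_sub_cancel_right]
    · change (p.2 - (p.1.1 + p.2 ᵥ* x) ᵥ* y) + (p.1.1 + p.2 ᵥ* x) ᵥ* y = p.2
      rw [sub_add_cancel]

theorem kerE_blocks (ℓ : ℕ) (e : Matrix ι ι A) (f : Matrix κ κ A) :
    Nonempty (kerE ℓ (fromBlocks e 0 0 f) ≃ₗ[A] (kerE ℓ e × kerE ℓ f)) := by
  have key : ∀ (a : ι → A) (b : κ → A), (Sum.elim a b) ᵥ* (fromBlocks e 0 0 f) =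
      Sum.elim (a ᵥ* e) (b ᵥ* f) := by
    intro a b
    rw [vecMul_fromBlocks]
    simp only [Sum.elim_comp_inl, Sum.elim_comp_inr, vecMul_zero, add_zero, zero_add]
  have hin : ∀ v : ι ⊕ κ → A, v ∈ kerE ℓ (fromBlocks e 0 0 f) →
      (v ∘ Sum.inl) ∈ kerE ℓ e ∧ (v ∘ Sum.inr) ∈ kerE ℓ f := by
    rintro v ⟨w, hw⟩
    rw [← Sum.elim_comp_inl_inr v, key] at hw
    refine ⟨⟨w ∘ Sum.inl, ?_⟩, ⟨w ∘ Sum.inr, ?_⟩⟩
    · funext i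
      exact congrFun hw (Sum.inl i)
    · funext i
      exact congrFun hw (Sum.inr i)
  refine ⟨{
    toFun := fun v => (⟨v.1 ∘ Sum.inl, (hin v.1 v.2).1⟩, ⟨v.1 ∘ Sum.inr, (hin v.1 v.2).2⟩)
    map_add' := fun p q => rfl
    map_smul' := fun c p => rfl
    invFun := fun p => ⟨Sum.elim p.1.1 p.2.1, ?_⟩
    left_inv := fun v => Subtype.ext (Sum.elim_comp_inl_inr v.1)
    right_inv := fun p => rfl }⟩
  obtain ⟨w, hw⟩ := p.1.2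
  obtain ⟨w', hw'⟩ := p.2.2
  refine ⟨Sum.elim w w', ?_⟩
  rw [key, hw, hw']
  funext i
  cases i <;> rfl

end Pool.Agent.H95.KF
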