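import Pool.Agent.H95.KF.Pm
import Pool.Agent.H95.KF.Sch
import Pool.Agent.H95.KF.FinB

/-!
# Project KF, module PmK: the class of `pmat` over `R[t, t⁻¹]` is constant

## Paper proofs

`IsQuo.lau`: coefficientwise (`lau_coeff`, `lau_surjective`; if `lau π x = 0` then every coefficient is divisible
by `ℓ`; choose the quotients, `0` for the zero coefficients, as in `exists_lau`: `KM.exists_lau`).
`lau_torsion`: coefficientwise.

`pmat_const`. Put `A = R[t, t⁻¹]`, `B' = B[t, t⁻¹]`, `λ = lau π : A → B'` (`IsQuo ℓ λ`, surjective). `ē := e.map λ` is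
idempotent (`ℓ δ ↦ 0`). `stConst_finite B` (reindexing is not needed, it is universe polymorphic) gives idempotent
matrices `f̄₀, f̄₁` over `B` and `x̄, ȳ` over `B'` with `x̄ ȳ = fromBlocks ē 0 0 (f̄₁.map cst)`, `ȳ x̄ = f̄₀.map cst`.
Lift entrywise `f̄ᵢ` to matrices `fᵢ` over `R` and `x̄, ȳ` to `x, y` over `A` (surjectivity). As the kernels are
`ℓ R` and `ℓ A`: `fᵢ - fᵢ fᵢ = ℓ δᵢ` for matrices `δᵢ` over `R`, and with `e' := fromBlocks e 0 0 (f₁.map cst)`: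
`MCong ℓ (x y) e'`, `MCong ℓ (y x) (f₀.map cst)`, `MCong ℓ (e' e') e'`, `MCong ℓ (f₀ᶜ f₀ᶜ) f₀ᶜ`.
`kerE_congr` and `kerE_blocks` (module Sch):
`(K(e) × K(f₁ᶜ)) × A^{I₀} ≃ K(e') × A^{I₀} ≃ K(f₀ᶜ) × A^{ι ⊕ I₁}`.
By `rep_pmat`, `Rep.prod`, `rep_one`, `Rep.matEquiv` (modules Pm, Rep):
`fromBlocks (fromBlocks (pmat ℓ e δ) 0 0 (pmat ℓ f₁ᶜ δ₁ᶜ)) 0 0 1` and `fromBlocks (pmat ℓ f₀ᶜ δ₀ᶜ) 0 0 1` are `MatEquiv`, so in
`K0 A` (`K0.cls_fromBlocks`, `K0.cls_congr`): `[pmat e] + [pmat f₁ᶜ] + [1] = [pmat f₀ᶜ] + [1]`.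
`pmat ℓ fᵢᶜ δᵢᶜ = (pmat ℓ fᵢ δᵢ).map cst` (`pmat_map`) and `1 = 1.map cst`, so all classes other than `[pmat e]` are
in the range of `K0.map cst` (`K0.map_cls`; `pmat ℓ fᵢ δᵢ` is idempotent over `R` by `(rep_pmat ..).idem` over `R`).
-/

set_option autoImplicit false

open Matrix
open scoped LaurentPolynomial

universe u v w

namespace Pool.Agent.H95.KF

open Pool.Agent.H71.FJ Pool.Agent.H95.KM

/-- `B` is the quotient of `R` by the (central) element `ℓ`. -/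
def IsQuo (ℓ : ℕ) {R : Type u} [Ring R] {B : Type w} [Ring B] (π : R →+* B) : Prop :=
  Function.Surjective π ∧ ∀ x, π x = 0 ↔ ∃ y, x = (ℓ : ℤ) • y

private theorem pmk_smul_coeff {R : Type u} [Ring R] (ℓ : ℕ) (x : R[T;T⁻¹]) (k : ℤ) :
    ((ℓ : ℤ) • x).coeff k = (ℓ : ℤ) • x.coeff k := by
  rw [AddMonoidAlgebra.coeff_smul, Finsupp.smul_apply]

theorem IsQuo.lau {ℓ : ℕ} {R : Type u} [Ring R] {B : Type w} [Ring B] {π : R →+* B}
    (h : IsQuo ℓ π) : IsQuo ℓ (KM.lau π) := by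
  classical
  refine ⟨lau_surjective h.1, fun x => ⟨fun hx => ?_, ?_⟩⟩
  · have h1 : ∀ k, ∃ y, x.coeff k = (ℓ : ℤ) • y := by
      intro k
      rw [← h.2, ← lau_coeff, hx, AddMonoidAlgebra.coeff_zero, Finsupp.zero_apply]
    choose g hg using h1
    refine ⟨∑ k ∈ x.coeff.support, AddMonoidAlgebra.single k (g k), ?_⟩
    apply ext_coeff
    intro k
    rw [pmk_smul_coeff, AddMonoidAlgebra.coeff_sum, Finsupp.finsetSum_apply]
    simp only [AddMonoidAlgebra.coeff_single, Finsupp.single_apply]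
    rw [Finset.sum_ite_eq' x.coeff.support k]
    split_ifs with hk
    · exact hg k
    · rw [smul_zero]
      exact Finsupp.notMem_support_iff.1 hk
  · rintro ⟨y, rfl⟩
    apply ext_coeff
    intro k
    rw [lau_coeff, pmk_smul_coeff, AddMonoidAlgebra.coeff_zero, Finsupp.zero_apply]
    exact (h.2 _).2 ⟨_, rfl⟩

theorem lau_torsion {ℓ : ℕ} {R : Type u} [Ring R] (hℓ : ∀ x : R, (ℓ : ℤ) • x = 0 → x = 0) :
    ∀ x : R[T;T⁻¹], (ℓ : ℤ) • x = 0 → x = 0 := by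
  intro x hx
  apply ext_coeff
  intro k
  rw [AddMonoidAlgebra.coeff_zero, Finsupp.zero_apply]
  apply hℓ
  rw [← pmk_smul_coeff, hx, AddMonoidAlgebra.coeff_zero, Finsupp.zero_apply]

private theorem pmk_lift {A : Type u} [Ring A] {B : Type w} [Ring B] {f : A →+* B}
    (hf : Function.Surjective f) {m n : Type*} (X : Matrix m n B) :
    ∃ Y : Matrix m n A, Y.map f = X := by
  choose g hg using hf
  refine ⟨X.map g, ?_⟩
  ext i j
  exact hg _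

private theorem pmk_cong {ℓ : ℕ} {A : Type u} [Ring A] {B : Type w} [Ring B] {f : A →+* B}
    (hf : IsQuo ℓ f) {m n : Type*} {X Y : Matrix m n A} (h : X.map f = Y.map f) :
    MCong ℓ X Y := by
  have h1 : ∀ i j, ∃ z, X i j - Y i j = (ℓ : ℤ) • z := by
    intro i j
    rw [← hf.2, map_sub, sub_eq_zero]
    exact congrFun (congrFun h i) j
  choose Z hZ using h1
  refine ⟨Z, ?_⟩
  ext i j
  exact hZ i j

private theorem pmk_cls_eq {A : Type u} [Ring A] {ι : Type*} [Fintype ι] [DecidableEq ι]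
    {e f : Matrix ι ι A} (he : e * e = e) (hf : f * f = f) (h : e = f) :
    K0.cls e he = K0.cls f hf := by
  subst h
  rfl

private theorem pmk_one_idem {A : Type u} [Ring A] (ι : Type*) [Fintype ι] [DecidableEq ι] :
    (1 : Matrix ι ι A) * 1 = 1 := one_mul 1

private theorem pmk_cls_one {A : Type u} [Ring A] {B : Type w} [Ring B] (f : A →+* B)
    (ι : Type*) [Fintype ι] [DecidableEq ι] :
    K0.map f (K0.cls (1 : Matrix ι ι A) (pmk_one_idem ι)) =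
      K0.cls (1 : Matrix ι ι B) (pmk_one_idem ι) := by
  rw [K0.map_cls]
  exact pmk_cls_eq _ _ (Matrix.map_one f (map_zero f) (map_one f))

private theorem pmk_pmat {R : Type u} [Ring R] (ℓ : ℕ)
    {ι : Type v} [Fintype ι] [DecidableEq ι] (f δ : Matrix ι ι R)
    (hf : pmat ℓ f δ * pmat ℓ f δ = pmat ℓ f δ)
    (hf' : pmat ℓ (f.map (cst R)) (δ.map (cst R)) * pmat ℓ (f.map (cst R)) (δ.map (cst R)) =
      pmat ℓ (f.map (cst R)) (δ.map (cst R))) :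
    K0.cls _ hf' = K0.map (cst R) (K0.cls _ hf) := by
  rw [K0.map_cls]
  exact pmk_cls_eq _ _ (pmat_map (cst R) ℓ f δ).symm

private theorem pmk_cst {R : Type u} [Ring R] (ℓ : ℕ)
    {ι : Type v} [Fintype ι] (f δ : Matrix ι ι R) (h : f - f * f = (ℓ : ℤ) • δ) :
    f.map (cst R) - f.map (cst R) * f.map (cst R) = (ℓ : ℤ) • δ.map (cst R) := by
  rw [← Matrix.map_mul, ← Matrix.map_sub (cst R) (map_sub _), h]
  refine Matrix.ext fun i j => ?_
  rw [Matrix.map_apply, Matrix.smul_apply, Matrix.smul_apply, Matrix.map_apply, map_zsmul]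

theorem pmat_const {R : Type u} [Ring R] (ℓ : ℕ) (hℓ : ∀ x : R, (ℓ : ℤ) • x = 0 → x = 0)
    {B : Type w} [Ring B] [Finite B] (π : R →+* B) (hπ : IsQuo ℓ π)
    {ι : Type v} [Fintype ι] [DecidableEq ι] (e δ : Matrix ι ι R[T;T⁻¹])
    (h : e - e * e = (ℓ : ℤ) • δ) (hp : pmat ℓ e δ * pmat ℓ e δ = pmat ℓ e δ) :
    ∃ x : K0 R, K0.cls (pmat ℓ e δ) hp = K0.map (cst R) x := by
  have hL : IsQuo ℓ (KM.lau π) := hπ.lau
  have hE : e.map (KM.lau π) * e.map (KM.lau π) = e.map (KM.lau π) := by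
    rw [← Matrix.map_mul]
    refine Matrix.ext fun i j => ?_
    rw [Matrix.map_apply, Matrix.map_apply, ← sub_eq_zero, ← map_sub, hL.2]
    refine ⟨-δ i j, ?_⟩
    have h1 := congrFun (congrFun h i) j
    rw [Matrix.sub_apply, Matrix.smul_apply] at h1
    rw [smul_neg, ← h1]
    abel
  obtain ⟨I₀, I₁, _, _, _, _, g₀, g₁, hg₀, hg₁, xb, yb, hxy, hyx⟩ :=
    stConst_finite B ι (e.map (KM.lau π)) hE
  obtain ⟨f₀, hf₀⟩ := pmk_lift hπ.1 g₀
  obtain ⟨f₁, hf₁⟩ := pmk_lift hπ.1 g₁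
  obtain ⟨x, hx⟩ := pmk_lift hL.1 xb
  obtain ⟨y, hy⟩ := pmk_lift hL.1 yb
  obtain ⟨δ₀, hδ₀⟩ : MCong ℓ f₀ (f₀ * f₀) := pmk_cong hπ (by rw [Matrix.map_mul, hf₀, hg₀])
  obtain ⟨δ₁, hδ₁⟩ : MCong ℓ f₁ (f₁ * f₁) := pmk_cong hπ (by rw [Matrix.map_mul, hf₁, hg₁])
  have hc : ∀ {m : Type v} (g : Matrix m m R),
      (g.map (cst R)).map (KM.lau π) = (g.map π).map (cst B) := by
    intro m g
    refine Matrix.ext fun i j => ?_
    simp only [Matrix.map_apply]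
    exact RingHom.congr_fun (lau_cst π) (g i j)
  have he' : (fromBlocks e 0 0 (f₁.map (cst R))).map (KM.lau π) =
      fromBlocks (e.map (KM.lau π)) 0 0 (g₁.map (cst B)) := by
    rw [Matrix.fromBlocks_map, hc, hf₁, Matrix.map_zero _ (map_zero _),
      Matrix.map_zero _ (map_zero _)]
  have hf₀' : (f₀.map (cst R)).map (KM.lau π) = g₀.map (cst B) := by rw [hc, hf₀]
  have c1 : MCong ℓ (fromBlocks e 0 0 (f₁.map (cst R)) * fromBlocks e 0 0 (f₁.map (cst R)))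
      (fromBlocks e 0 0 (f₁.map (cst R))) := by
    apply pmk_cong hL
    rw [Matrix.map_mul, he']
    apply K0.fromBlocks_idem hE
    rw [← Matrix.map_mul, hg₁]
  have c2 : MCong ℓ (f₀.map (cst R) * f₀.map (cst R)) (f₀.map (cst R)) := by
    apply pmk_cong hL
    rw [Matrix.map_mul, hf₀', ← Matrix.map_mul, hg₀]
  have c3 : MCong ℓ (x * y) (fromBlocks e 0 0 (f₁.map (cst R))) := by
    apply pmk_cong hL
    rw [Matrix.map_mul, hx, hy, hxy, he']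
  have c4 : MCong ℓ (y * x) (f₀.map (cst R)) := by
    apply pmk_cong hL
    rw [Matrix.map_mul, hx, hy, hyx, hf₀']
  obtain ⟨G1⟩ := kerE_congr ℓ _ _ x y c1 c2 c3 c4
  obtain ⟨G2⟩ := kerE_blocks ℓ e (f₁.map (cst R))
  have t := lau_torsion (ℓ := ℓ) hℓ
  have d₀ := pmk_cst ℓ f₀ δ₀ hδ₀
  have d₁ := pmk_cst ℓ f₁ δ₁ hδ₁
  have r := rep_pmat ℓ t e δ h
  have r₁ := rep_pmat ℓ t _ _ d₁
  have r₀ := rep_pmat ℓ t _ _ d₀
  have s₁ := rep_pmat ℓ hℓ _ _ hδ₁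
  have s₀ := rep_pmat ℓ hℓ _ _ hδ₀
  have m := ((r.prod r₁).prod (rep_one (A := R[T;T⁻¹]) (ι := I₀))).matEquiv
    (r₀.prod (rep_one (A := R[T;T⁻¹]) (ι := ι ⊕ I₁)))
    ((LinearEquiv.prodCongr G2.symm (LinearEquiv.refl R[T;T⁻¹] (I₀ → R[T;T⁻¹]))).trans G1)
  have m' := K0.cls_congr
    (K0.fromBlocks_idem (K0.fromBlocks_idem hp r₁.idem) (pmk_one_idem I₀))
    (K0.fromBlocks_idem r₀.idem (pmk_one_idem (ι ⊕ I₁))) m
  rw [K0.cls_fromBlocks (K0.fromBlocks_idem hp r₁.idem) (pmk_one_idem I₀),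
    K0.cls_fromBlocks hp r₁.idem, K0.cls_fromBlocks r₀.idem (pmk_one_idem (ι ⊕ I₁)),
    pmk_pmat ℓ f₁ δ₁ s₁.idem, pmk_pmat ℓ f₀ δ₀ s₀.idem, ← pmk_cls_one (cst R) I₀,
    ← pmk_cls_one (cst R) (ι ⊕ I₁)] at m'
  refine ⟨K0.cls _ s₀.idem + K0.cls _ (pmk_one_idem (ι ⊕ I₁)) - K0.cls _ (pmk_one_idem I₀) -
    K0.cls _ s₁.idem, ?_⟩
  rw [map_sub, map_sub, map_add, ← m']
  abel

end Pool.Agent.H95.KF
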