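import Pool.Agent.H95.KF.Dia
import Pool.Agent.H95.WH.SmN

/-!
# Project KF, module Smi: idempotent matrices intertwined by an integral matrix

## Paper proof

`exists_smn` (`Pool/Agent/H95/WH/SmN.lean`): `P, P', Q, Q', d` with `P P' = 1 = P' P`, `Q Q' = 1`, `Q' Q = 1`, `a Q = P diag(d)`,
`d i ≠ 0`. Denote images of the integral matrices in `A = R[t, t⁻¹]` by the same letters.
`E₁ := P' E P`, `E₁' := Q' E' Q`, both `X × X`; idempotent (`E₁ E₁ = P' E P P' E P = P' E P`), `MatEquiv E E₁`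
(`E = (E P) (P' E)`, `(P' E) (E P) = E₁`), `MatEquiv E' E₁'`.
`E₁ diag(d) = P' E P diag(d) = P' E a Q = P' a E' Q = P' a Q Q' E' Q = P' P diag(d) Q' E' Q = diag(d) E₁'`.
`mk_diagonal` gives `mk [E₁] = mk [E₁']`.
(`Matrix.map_mul` for `Int.castRingHom A`; `diagonal d` maps to `diagonal (fun i => (d i : A))`.)
-/

set_option autoImplicit false

open Matrix
open scoped LaurentPolynomial

universe u v w

namespace Pool.Agent.H95.KF

open Pool.Agent.H71.FJ Pool.Agent.H95.KM

theorem mk_inter {R : Type u} [Ring R] (hR : FinMod R) {X Y : Type v} [Fintype X] [Fintype Y]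
    [DecidableEq X] [DecidableEq Y] (n : ℕ) (hn : n ≠ 0) (a : Matrix X Y ℤ) (b : Matrix Y X ℤ)
    (hab : a * b = (n : ℤ) • (1 : Matrix X X ℤ)) (hba : b * a = (n : ℤ) • (1 : Matrix Y Y ℤ))
    (E : Matrix X X R[T;T⁻¹]) (E' : Matrix Y Y R[T;T⁻¹]) (hE : E * E = E) (hE' : E' * E' = E')
    (h : E * a.map (Int.castRingHom R[T;T⁻¹]) = a.map (Int.castRingHom R[T;T⁻¹]) * E') :
    Km1.mk (K0.cls E hE) = Km1.mk (K0.cls E' hE') := by
  obtain ⟨P, P', Q, Q', d, hPP', hP'P, hQQ', hQ'Q, haQ, hd⟩ :=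
    Pool.Agent.H95.WH.exists_smn n hn a b hab hba
  let φ : ℤ →+* R[T;T⁻¹] := Int.castRingHom R[T;T⁻¹]
  have m1 : P.map φ * P'.map φ = 1 := by
    rw [← Matrix.map_mul, hPP', Matrix.map_one φ (map_zero φ) (map_one φ)]
  have m2 : P'.map φ * P.map φ = 1 := by
    rw [← Matrix.map_mul, hP'P, Matrix.map_one φ (map_zero φ) (map_one φ)]
  have m3 : Q.map φ * Q'.map φ = 1 := by
    rw [← Matrix.map_mul, hQQ', Matrix.map_one φ (map_zero φ) (map_one φ)]
  have m5 : a.map φ * Q.map φ = P.map φ * diagonal (fun i => (d i : R[T;T⁻¹])) := by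
    rw [← Matrix.map_mul, haQ, Matrix.map_mul, diagonal_map (map_zero φ)]
    rfl
  have h' : E * a.map φ = a.map φ * E' := h
  have e1 : (P'.map φ * E * P.map φ) * (P'.map φ * E * P.map φ) = P'.map φ * E * P.map φ := by
    calc (P'.map φ * E * P.map φ) * (P'.map φ * E * P.map φ)
        = P'.map φ * E * (P.map φ * P'.map φ) * E * P.map φ := by simp only [Matrix.mul_assoc]
      _ = P'.map φ * (E * E) * P.map φ := by rw [m1, Matrix.mul_one]; simp only [Matrix.mul_assoc]
      _ = P'.map φ * E * P.map φ := by rw [hE]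
  have e2 : (Q'.map φ * E' * Q.map φ) * (Q'.map φ * E' * Q.map φ) = Q'.map φ * E' * Q.map φ := by
    calc (Q'.map φ * E' * Q.map φ) * (Q'.map φ * E' * Q.map φ)
        = Q'.map φ * E' * (Q.map φ * Q'.map φ) * E' * Q.map φ := by simp only [Matrix.mul_assoc]
      _ = Q'.map φ * (E' * E') * Q.map φ := by rw [m3, Matrix.mul_one]; simp only [Matrix.mul_assoc]
      _ = Q'.map φ * E' * Q.map φ := by rw [hE']
  have q1 : MatEquiv E (P'.map φ * E * P.map φ) := by
    refine ⟨E * P.map φ, P'.map φ * E, ?_, ?_⟩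
    · calc E * P.map φ * (P'.map φ * E) = E * (P.map φ * P'.map φ) * E := by
            simp only [Matrix.mul_assoc]
        _ = E := by rw [m1, Matrix.mul_one, hE]
    · calc P'.map φ * E * (E * P.map φ) = P'.map φ * (E * E) * P.map φ := by
            simp only [Matrix.mul_assoc]
        _ = P'.map φ * E * P.map φ := by rw [hE]
  have q2 : MatEquiv E' (Q'.map φ * E' * Q.map φ) := by
    refine ⟨E' * Q.map φ, Q'.map φ * E', ?_, ?_⟩
    · calc E' * Q.map φ * (Q'.map φ * E') = E' * (Q.map φ * Q'.map φ) * E' := by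
            simp only [Matrix.mul_assoc]
        _ = E' := by rw [m3, Matrix.mul_one, hE']
    · calc Q'.map φ * E' * (E' * Q.map φ) = Q'.map φ * (E' * E') * Q.map φ := by
            simp only [Matrix.mul_assoc]
        _ = Q'.map φ * E' * Q.map φ := by rw [hE']
  have key : (P'.map φ * E * P.map φ) * diagonal (fun i => (d i : R[T;T⁻¹])) =
      diagonal (fun i => (d i : R[T;T⁻¹])) * (Q'.map φ * E' * Q.map φ) := by
    calc (P'.map φ * E * P.map φ) * diagonal (fun i => (d i : R[T;T⁻¹]))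
        = P'.map φ * E * (P.map φ * diagonal (fun i => (d i : R[T;T⁻¹]))) := by
          simp only [Matrix.mul_assoc]
      _ = P'.map φ * E * (a.map φ * Q.map φ) := by rw [m5]
      _ = P'.map φ * (E * a.map φ) * Q.map φ := by simp only [Matrix.mul_assoc]
      _ = P'.map φ * (a.map φ * E') * Q.map φ := by rw [h']
      _ = P'.map φ * (a.map φ * (Q.map φ * Q'.map φ) * E') * Q.map φ := by
          rw [m3, Matrix.mul_one]
      _ = P'.map φ * (a.map φ * Q.map φ) * (Q'.map φ * E' * Q.map φ) := by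
          simp only [Matrix.mul_assoc]
      _ = P'.map φ * (P.map φ * diagonal (fun i => (d i : R[T;T⁻¹]))) *
          (Q'.map φ * E' * Q.map φ) := by rw [m5]
      _ = (P'.map φ * P.map φ) * diagonal (fun i => (d i : R[T;T⁻¹])) *
          (Q'.map φ * E' * Q.map φ) := by simp only [Matrix.mul_assoc]
      _ = diagonal (fun i => (d i : R[T;T⁻¹])) * (Q'.map φ * E' * Q.map φ) := by
          rw [m2, Matrix.one_mul]
  rw [K0.cls_congr hE e1 q1, K0.cls_congr hE' e2 q2]
  exact mk_diagonal hR d hd _ _ e1 e2 key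

end Pool.Agent.H95.KF
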