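import Pool.Agent.H95.KF.Defs

/-!
# Project KF, module Rep: idempotent matrices representing modules

## Paper proofs

`Rep e P`: maps `i : P → A^ι`, `r : A^ι → P` with `r i = 1` and `i r = (· e)` (row vectors, left modules).
* `Rep.idem`: `(v e) e = i (r (i (r v))) = i (r v) = v e` for all `v`; take `v = Pi.single j 1` (or use
  `Matrix.toLinearMapRight'`/`LinearMap.toMatrixRight'`, which exist for noncommutative rings).
* `rep_fixM`: `i` the inclusion, `r v = v e`.
* `rep_one`: identities.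
* `Rep.prod`: `i (p, q) = Sum.elim (i p) (i' q)`, `r w = (r (w ∘ inl), r' (w ∘ inr))`
  (`Matrix.vecMul_fromBlocks` or by hand).
* `Rep.equiv`: `i ∘ g.symm`, `g ∘ r`.
* `Rep.matEquiv`: with `Q = P` (by `Rep.equiv`): `x := toMatrixRight' (i' ∘ r) : Matrix ι κ A` (i.e. row `j` of `x`
  is `i' (r (Pi.single j 1))`), `y := toMatrixRight' (i ∘ r')`. Acting on row vectors `v x = i' (r v)`,
  `v (x y) = i (r' (i' (r v))) = i (r v) = v e`, so `x y = e`; in the same way `y x = f`.
-/

set_option autoImplicit false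

open Matrix

universe u v w

namespace Pool.Agent.H95.KF

open Pool.Agent.H71.FJ

variable {A : Type u} [Ring A] {ι : Type*} [Fintype ι] [DecidableEq ι] {κ : Type*} [Fintype κ]
  [DecidableEq κ]

private theorem rep_ext_row {m n : Type*} [Fintype m] [DecidableEq m] {M N : Matrix m n A}
    (h : ∀ v : m → A, v ᵥ* M = v ᵥ* N) : M = N :=
  Matrix.toLinearMapRight'.injective (LinearMap.ext h)

private theorem rep_exists_mat {m n : Type*} [Fintype m] [DecidableEq m]
    (f : (m → A) →ₗ[A] (n → A)) : ∃ M : Matrix m n A, ∀ v, v ᵥ* M = f v :=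
  ⟨LinearMap.toMatrixRight' f, fun v =>
    LinearMap.congr_fun (LinearMap.toMatrixRight'.symm_apply_apply f) v⟩

theorem Rep.idem {e : Matrix ι ι A} {P : Type*} [AddCommGroup P] [Module A P] (h : Rep e P) :
    e * e = e := by
  obtain ⟨i, r, hr, hi⟩ := h
  apply rep_ext_row
  intro v
  rw [← vecMul_vecMul, ← hi, ← hi, hr]

theorem rep_fixM {e : Matrix ι ι A} (he : e * e = e) : Rep e (fixM e) := by
  refine ⟨(fixM e).subtype, (Matrix.toLinearMapRight' e).codRestrict (fixM e) (fun v => ?_),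
    fun p => ?_, fun v => ?_⟩
  · change (v ᵥ* e) ᵥ* e = v ᵥ* e
    rw [vecMul_vecMul, he]
  · apply Subtype.ext
    exact p.2
  · rfl

theorem rep_one : Rep (1 : Matrix ι ι A) (ι → A) :=
  ⟨LinearMap.id, LinearMap.id, fun _ => rfl, fun v => (vecMul_one v).symm⟩

theorem Rep.prod {e : Matrix ι ι A} {f : Matrix κ κ A} {P : Type*} [AddCommGroup P] [Module A P]
    {Q : Type*} [AddCommGroup Q] [Module A Q] (h : Rep e P) (h' : Rep f Q) :
    Rep (fromBlocks e 0 0 f) (P × Q) := by
  obtain ⟨i, r, hr, hi⟩ := h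
  obtain ⟨i', r', hr', hi'⟩ := h'
  let I : P × Q →ₗ[A] (ι ⊕ κ → A) :=
    { toFun := fun p => Sum.elim (i p.1) (i' p.2)
      map_add' := fun p q => by
        funext j
        rcases j with j | j
        · change i (p.1 + q.1) j = i p.1 j + i q.1 j
          rw [map_add]
          rfl
        · change i' (p.2 + q.2) j = i' p.2 j + i' q.2 j
          rw [map_add]
          rfl
      map_smul' := fun c p => by
        funext j
        rcases j with j | j
        · change i (c • p.1) j = c • i p.1 j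
          rw [map_smul]
          rfl
        · change i' (c • p.2) j = c • i' p.2 j
          rw [map_smul]
          rfl }
  let J : (ι ⊕ κ → A) →ₗ[A] P × Q :=
    { toFun := fun w => (r (w ∘ Sum.inl), r' (w ∘ Sum.inr))
      map_add' := fun w w' => by
        change (r (w ∘ Sum.inl + w' ∘ Sum.inl), r' (w ∘ Sum.inr + w' ∘ Sum.inr)) = _
        rw [map_add, map_add]
        rfl
      map_smul' := fun c w => by
        change (r (c • (w ∘ Sum.inl)), r' (c • (w ∘ Sum.inr))) = _
        rw [map_smul, map_smul]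
        rfl }
  refine ⟨I, J, fun p => ?_, fun w => ?_⟩
  · change (r (Sum.elim (i p.1) (i' p.2) ∘ Sum.inl), r' (Sum.elim (i p.1) (i' p.2) ∘ Sum.inr)) = p
    rw [Sum.elim_comp_inl, Sum.elim_comp_inr, hr, hr']
  · change Sum.elim (i (r (w ∘ Sum.inl))) (i' (r' (w ∘ Sum.inr))) = _
    rw [vecMul_fromBlocks, vecMul_zero, vecMul_zero, add_zero, zero_add, hi, hi']

theorem Rep.equiv {e : Matrix ι ι A} {P : Type*} [AddCommGroup P] [Module A P]
    {Q : Type*} [AddCommGroup Q] [Module A Q] (h : Rep e P) (g : P ≃ₗ[A] Q) : Rep e Q := by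
  obtain ⟨i, r, hr, hi⟩ := h
  refine ⟨i.comp g.symm.toLinearMap, g.toLinearMap.comp r, fun p => ?_, fun v => ?_⟩
  · change g (r (i (g.symm p))) = p
    rw [hr, LinearEquiv.apply_symm_apply]
  · change i (g.symm (g (r v))) = v ᵥ* e
    rw [LinearEquiv.symm_apply_apply, hi]

theorem Rep.matEquiv {e : Matrix ι ι A} {f : Matrix κ κ A} {P : Type*} [AddCommGroup P]
    [Module A P] {Q : Type*} [AddCommGroup Q] [Module A Q] (h : Rep e P) (h' : Rep f Q)
    (g : P ≃ₗ[A] Q) : MatEquiv e f := by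
  obtain ⟨i, r, hr, hi⟩ := h.equiv g
  obtain ⟨i', r', hr', hi'⟩ := h'
  obtain ⟨x, hx⟩ := rep_exists_mat (i'.comp r)
  obtain ⟨y, hy⟩ := rep_exists_mat (i.comp r')
  refine ⟨x, y, rep_ext_row fun v => ?_, rep_ext_row fun v => ?_⟩
  · rw [← vecMul_vecMul, hx, hy]
    change i (r' (i' (r v))) = v ᵥ* e
    rw [hr', hi]
  · rw [← vecMul_vecMul, hy, hx]
    change i' (r (i (r' v))) = v ᵥ* f
    rw [hr, hi']

end Pool.Agent.H95.KF
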