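import Pool.Agent.H95.KM.Lau

/-!
# Project KF, module Win: `K₀(D) → K₀(D[t, t⁻¹])` is onto for a semisimple ring `D`

## Paper proof

This is the proof of `ded_main` in `Pool/Agent/H95/KM/Ded.lean` (sorry-free, commutative Dedekind domains, column
vectors); adapt it (copy that file and change it) to row vectors over the noncommutative ring `D`.
Changes:
* use row vectors (`v ᵥ* E`), left modules, `LinearMap.toMatrixRight'` / `Matrix.toLinearMapRight'` instead of
  `toMatrix'`; all products of matrices are in the opposite order; `t = T 1` is central in `D[t, t⁻¹]`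
  (`LaurentPolynomial.commute_T`), and it is convenient to write `u (n, i) * t ^ n` (right factor) in `dedB`, `dedA`,
  `dedC`, since these maps are then obviously left linear.
* `ded_exists_idem` is replaced by: `D` semisimple, `ι` finite, `L : (ι → D) →ₗ[D] W` linear, then there is
  `f : Matrix ι ι D` with `f * f = f` and `∀ v, v ᵥ* f = v ↔ L v = 0`: the submodule `ker L` of `ι → D` has a complement
  (`IsSemisimpleModule D (ι → D)`, `ComplementedLattice`, `Submodule.exists_isCompl`), take the projection onto `ker L`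
  along the complement (`Submodule.projection`/`Submodule.linearProjOfIsCompl` composed with the inclusion) and its
  matrix.
* `I₀ = Fin N × K`, `I₁ = Fin M × K`.
The idea: `P = {v : K → D[t,t⁻¹] | v E = v}`, for a window `I` of exponents `P_I = {v ∈ P | exponents in I}`;
`0 → D[t,t⁻¹] ⊗ P_{I'} → D[t,t⁻¹] ⊗ P_I → P → 0` is split exact for `I = [-d, d]`, `I' = [-d, d - 1]`.
-/

set_option autoImplicit false

open Matrix
open scoped LaurentPolynomial

universe u v w

namespace Pool.Agent.H95.KF

open Pool.Agent.H71.FJ Pool.Agent.H95.KM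

/-- Every idempotent matrix over `D[t, t⁻¹]` is stably equivalent to a constant one. -/
def StConst (D : Type u) [Ring D] : Prop :=
  ∀ (K : Type w) [Fintype K] [DecidableEq K] (E : Matrix K K D[T;T⁻¹]), E * E = E →
    ∃ (I₀ I₁ : Type w) (_ : Fintype I₀) (_ : Fintype I₁) (_ : DecidableEq I₀) (_ : DecidableEq I₁)
      (f₀ : Matrix I₀ I₀ D) (f₁ : Matrix I₁ I₁ D), f₀ * f₀ = f₀ ∧ f₁ * f₁ = f₁ ∧
      MatEquiv (fromBlocks E 0 0 (f₁.map (cst D))) (f₀.map (cst D))

section WinWindow

variable {Λ : Type u} [Ring Λ] {K : Type v}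

/-- extension by zero of a function on `Fin M × K` -/
private def winExt {M : ℕ} (w : Fin M × K → Λ) (i : K) (n : ℕ) : Λ :=
  if h : n < M then w (⟨n, h⟩, i) else 0

private theorem winExt_of_le {M : ℕ} (w : Fin M × K → Λ) (i : K) {n : ℕ} (h : M ≤ n) :
    winExt w i n = 0 := dif_neg (by omega)

private theorem winExt_fin {M : ℕ} (w : Fin M × K → Λ) (i : K) (n : Fin M) :
    winExt w i n = w (n, i) := dif_pos n.2

private theorem winExt_add {M : ℕ} (w w' : Fin M × K → Λ) (i : K) (n : ℕ) :
    winExt (w + w') i n = winExt w i n + winExt w' i n := by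
  unfold winExt
  split_ifs
  · rfl
  · rw [add_zero]

private theorem winExt_smul {M : ℕ} (c : Λ) (w : Fin M × K → Λ) (i : K) (n : ℕ) :
    winExt (c • w) i n = c * winExt w i n := by
  unfold winExt
  split_ifs
  · rfl
  · rw [mul_zero]

/-- `v ↦ ∑ vₙ tⁿ` -/
private def winB (N : ℕ) (t : Λ) : (Fin N × K → Λ) →ₗ[Λ] (K → Λ) where
  toFun u i := ∑ n : Fin N, u (n, i) * t ^ (n : ℕ)
  map_add' u u' := by
    funext i
    simp only [Pi.add_apply, add_mul, Finset.sum_add_distrib]
  map_smul' c u := by
    funext i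
    simp only [Pi.smul_apply, smul_eq_mul, RingHom.id_apply, Finset.mul_sum, mul_assoc]

private theorem winB_apply (N : ℕ) (t : Λ) (u : Fin N × K → Λ) (i : K) :
    winB N t u i = ∑ n : Fin N, u (n, i) * t ^ (n : ℕ) := rfl

/-- multiplication by `t - s` -/
private def winA (M : ℕ) (t : Λ) : (Fin M × K → Λ) →ₗ[Λ] (Fin (M + 1) × K → Λ) where
  toFun w p := winExt w p.2 p.1 * t - if (p.1 : ℕ) = 0 then 0 else winExt w p.2 (p.1 - 1)
  map_add' w w' := by
    funext p
    simp only [Pi.add_apply, winExt_add, add_mul]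
    split_ifs <;> abel
  map_smul' c w := by
    funext p
    simp only [Pi.smul_apply, winExt_smul, smul_eq_mul, RingHom.id_apply, mul_sub, mul_assoc]
    split_ifs
    · rw [mul_zero]
    · rfl

private theorem winA_apply (M : ℕ) (t : Λ) (w : Fin M × K → Λ) (p : Fin (M + 1) × K) :
    winA M t w p = winExt w p.2 p.1 * t -
      if (p.1 : ℕ) = 0 then 0 else winExt w p.2 (p.1 - 1) := rfl

/-- division by `t - s` -/
private def winC (M : ℕ) (t : Λ) : (Fin (M + 1) × K → Λ) →ₗ[Λ] (Fin M × K → Λ) where
  toFun u p := -∑ l : Fin (M + 1), if (p.1 : ℕ) < l then u (l, p.2) * t ^ ((l : ℕ) - 1 - p.1) else 0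
  map_add' u u' := by
    funext p
    simp only [Pi.add_apply]
    rw [← neg_add, ← Finset.sum_add_distrib]
    congr 1
    exact Finset.sum_congr rfl fun l _ => by
      split_ifs
      · rw [add_mul]
      · rw [add_zero]
  map_smul' c u := by
    funext p
    simp only [Pi.smul_apply, smul_eq_mul, RingHom.id_apply]
    rw [mul_neg, Finset.mul_sum]
    congr 1
    exact Finset.sum_congr rfl fun l _ => by
      split_ifs
      · rw [mul_assoc]
      · rw [mul_zero]

private theorem winC_ext (M : ℕ) (t : Λ) (u : Fin (M + 1) × K → Λ) (i : K) (m : ℕ) :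
    winExt (winC M t u) i m =
      -∑ l : Fin (M + 1), if m < l then u (l, i) * t ^ ((l : ℕ) - 1 - m) else 0 := by
  unfold winExt
  split_ifs with h
  · rfl
  · rw [eq_comm, neg_eq_zero]
    apply Finset.sum_eq_zero
    intro l _
    rw [if_neg (by omega)]

private theorem win_AC (M : ℕ) (t : Λ) (u : Fin (M + 1) × K → Λ) (p : Fin (M + 1) × K) :
    winA M t (winC M t u) p = u p - if (p.1 : ℕ) = 0 then winB (M + 1) t u p.2 else 0 := by
  obtain ⟨n, i⟩ := p
  rw [winA_apply, winB_apply]
  simp only
  rw [winC_ext, winC_ext]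
  by_cases hn : (n : ℕ) = 0
  · rw [if_pos hn, if_pos hn, sub_zero, neg_mul, Finset.sum_mul, eq_sub_iff_add_eq, neg_add_eq_sub,
      ← Finset.sum_sub_distrib]
    rw [Finset.sum_eq_single n]
    · rw [hn]
      simp
    · intro l _ hl
      have hl' : (n : ℕ) < l := by
        have : (l : ℕ) ≠ n := fun h => hl (Fin.ext h)
        omega
      rw [if_pos hl', sub_eq_zero]
      rw [mul_assoc, ← pow_succ]
      congr 2
      omega
    · intro h
      exact absurd (Finset.mem_univ _) h
  · rw [if_neg hn, if_neg hn, sub_zero, neg_mul, Finset.sum_mul, sub_neg_eq_add, neg_add_eq_sub,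
      ← Finset.sum_sub_distrib]
    rw [Finset.sum_eq_single n]
    · rw [if_neg (lt_irrefl _), if_pos (by omega)]
      simp
    · intro l _ hl
      have hl' : (l : ℕ) ≠ n := fun h => hl (Fin.ext h)
      by_cases h1 : (n : ℕ) < l
      · rw [if_pos h1, if_pos (by omega), sub_eq_zero, mul_assoc, ← pow_succ]
        congr 2
        omega
      · rw [if_neg h1, if_neg (by omega), zero_mul, sub_zero]
    · intro h
      exact absurd (Finset.mem_univ _) h

private theorem win_sum (M : ℕ) (t : Λ) (x y : ℕ → Λ) (hx : x M = 0) :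
    ∑ n : Fin (M + 1), (x n - if (n : ℕ) = 0 then 0 else y (n - 1)) * t ^ (n : ℕ) =
      ∑ n : Fin M, x n * t ^ (n : ℕ) - (∑ n : Fin M, y n * t ^ (n : ℕ)) * t := by
  simp only [sub_mul, Finset.sum_sub_distrib]
  rw [Fin.sum_univ_castSucc, Fin.sum_univ_succ (fun n : Fin (M + 1) =>
    (if (n : ℕ) = 0 then 0 else y (n - 1)) * t ^ (n : ℕ))]
  simp [hx, pow_succ, Finset.sum_mul, mul_assoc]

private theorem win_BA (M : ℕ) (t : Λ) (w : Fin M × K → Λ) : winB (M + 1) t (winA M t w) = 0 := by
  funext i
  rw [winB_apply]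
  simp only [winA_apply]
  rw [win_sum M t (fun n => winExt w i n * t) (fun n => winExt w i n)
    (by rw [winExt_of_le w i le_rfl, zero_mul]), Finset.sum_mul, Pi.zero_apply, sub_eq_zero]
  exact Finset.sum_congr rfl fun n _ => by
    rw [mul_assoc, mul_assoc, ← pow_succ', ← pow_succ]

private theorem win_A_inj (M : ℕ) (t : Λ) (w : Fin M × K → Λ) (h : winA M t w = 0) : w = 0 := by
  have h1 : ∀ i, ∀ j n : ℕ, M ≤ n + j → winExt w i n = 0 := by
    intro i j
    induction j with
    | zero =>
      intro n hn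
      exact winExt_of_le w i (by omega)
    | succ j ih =>
      intro n hn
      by_cases hn' : M ≤ n
      · exact winExt_of_le w i hn'
      · have := congrFun h (⟨n + 1, by omega⟩, i)
        rw [winA_apply] at this
        simp only [Nat.add_eq_zero_iff, one_ne_zero, and_false, if_false, Nat.add_sub_cancel,
          Pi.zero_apply] at this
        rw [ih (n + 1) (by omega), zero_mul, zero_sub, neg_eq_zero] at this
        exact this
  funext p
  rw [← winExt_fin w p.2 p.1]
  exact h1 p.2 M p.1 (by omega)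

private theorem win_CA (M : ℕ) (t : Λ) (w : Fin M × K → Λ) : winC M t (winA M t w) = w := by
  rw [← sub_eq_zero]
  apply win_A_inj M t
  rw [map_sub, sub_eq_zero]
  funext p
  rw [win_AC, win_BA]
  simp

end WinWindow

section WinLau

variable {D : Type u} [Ring D] {K : Type v} [Fintype K]

private theorem win_coeff_mul_cst (a : D) (x : D[T;T⁻¹]) (j : ℤ) :
    (x * cst D a).coeff j = x.coeff j * a := by
  rw [cst_apply]
  exact AddMonoidAlgebra.coeff_mul_single_zero x a j

private theorem win_coeff_mul_T (m : ℤ) (x : D[T;T⁻¹]) (j : ℤ) :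
    (x * (LaurentPolynomial.T m : D[T;T⁻¹])).coeff j = x.coeff (j - m) := by
  rw [← LaurentPolynomial.T_mul]
  unfold LaurentPolynomial.T
  rw [AddMonoidAlgebra.coeff_single_mul_eq_mul_coeff (j - m) (fun a _ => by omega), one_mul]

/-- coefficient vector -/
private def winCf {ι : Type w} (j : ℤ) (u : ι → D[T;T⁻¹]) : ι → D := fun p => (u p).coeff j

/-- `v ↦ ∑ vₙ tⁿ` for constant vectors `vₙ` -/
private noncomputable def winPsi (N : ℕ) (v : Fin N × K → D) : K → D[T;T⁻¹] :=
  winB N (LaurentPolynomial.T 1) (fun p => cst D (v p))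

/-- defect -/
private noncomputable def winL (E : Matrix K K D[T;T⁻¹]) (N : ℕ) :
    (Fin N × K → D) →ₗ[D] (K → D[T;T⁻¹]) where
  toFun v := winPsi N v ᵥ* E - winPsi N v
  map_add' v v' := by
    have h : winPsi N (v + v') = winPsi N v + winPsi N v' := by
      unfold winPsi
      rw [← map_add]
      congr 1
      funext p
      exact map_add _ _ _
    rw [h, add_vecMul]
    abel
  map_smul' c v := by
    have h : winPsi N (c • v) = cst D c • winPsi N v := by
      unfold winPsi
      rw [← map_smul]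
      congr 1
      funext p
      exact map_mul _ _ _
    have h2 : ∀ x : K → D[T;T⁻¹], c • x = cst D c • x := by
      intro x
      funext p
      exact LaurentPolynomial.smul_eq_C_mul c (x p)
    rw [h, smul_vecMul, RingHom.id_apply, h2, smul_sub]

private theorem winL_apply (E : Matrix K K D[T;T⁻¹]) (N : ℕ) (v : Fin N × K → D) :
    winL E N v = winPsi N v ᵥ* E - winPsi N v := rfl

omit [Fintype K] in
private theorem winPsi_A (M : ℕ) (w : Fin M × K → D[T;T⁻¹]) (j : ℤ) :
    winPsi (M + 1) (winCf j (winA M (LaurentPolynomial.T 1) w)) =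
      winPsi M (winCf (j - 1) w) - (LaurentPolynomial.T 1 : D[T;T⁻¹]) • winPsi M (winCf j w) := by
  funext i
  rw [winPsi, winB_apply, Pi.sub_apply, Pi.smul_apply, smul_eq_mul, LaurentPolynomial.T_mul,
    winPsi, winPsi, winB_apply, winB_apply]
  have h1 := win_sum M (LaurentPolynomial.T 1 : D[T;T⁻¹])
    (fun n => cst D ((winExt w i n).coeff (j - 1))) (fun n => cst D ((winExt w i n).coeff j))
    (by simp only [winExt_of_le w i le_rfl]; simp)
  simp only [winExt_fin] at h1
  refine Eq.trans (Finset.sum_congr rfl fun n _ => ?_) h1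
  congr 1
  change cst D ((winA M (LaurentPolynomial.T 1) w (n, i)).coeff j) = _
  rw [winA_apply]
  simp only
  rw [AddMonoidAlgebra.coeff_sub, Finsupp.sub_apply, win_coeff_mul_T, map_sub]
  congr 1
  split_ifs
  · simp
  · rfl

private theorem winL_A (E : Matrix K K D[T;T⁻¹]) (M : ℕ) (w : Fin M × K → D[T;T⁻¹]) (j : ℤ) :
    winL E (M + 1) (winCf j (winA M (LaurentPolynomial.T 1) w)) =
      winL E M (winCf (j - 1) w) -
        (LaurentPolynomial.T 1 : D[T;T⁻¹]) • winL E M (winCf j w) := by
  rw [winL_apply, winL_apply, winL_apply, winPsi_A, sub_vecMul, smul_vecMul, smul_sub]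
  abel

private theorem win_cf_vecMul {ι κ : Type*} [Fintype κ] (f : Matrix κ ι D) (u : κ → D[T;T⁻¹])
    (j : ℤ) : winCf j (u ᵥ* (f.map (cst D))) = winCf j u ᵥ* f := by
  funext p
  simp only [winCf, vecMul, dotProduct, map_apply, AddMonoidAlgebra.coeff_sum,
    Finsupp.finsetSum_apply, win_coeff_mul_cst]

private theorem win_fix_iff {ι : Type w} [Fintype ι] (f : Matrix ι ι D) (u : ι → D[T;T⁻¹]) :
    u ᵥ* (f.map (cst D)) = u ↔ ∀ j, winCf j u ᵥ* f = winCf j u := by
  constructor
  · intro h j
    rw [← win_cf_vecMul, h]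
  · intro h
    funext p
    apply ext_coeff
    intro j
    exact congrFun ((win_cf_vecMul f u j).trans (h j)) p

/-- some bound for the degrees -/
private theorem win_bound {ι : Type w} [Finite ι] (u : ι → D[T;T⁻¹]) :
    ∃ d : ℕ, ∀ p, ∀ j : ℤ, (d : ℤ) < |j| → (u p).coeff j = 0 := by
  have h : ∀ p, ∃ d : ℕ, ∀ j : ℤ, (d : ℤ) < |j| → (u p).coeff j = 0 := by
    intro p
    refine ⟨∑ j ∈ (u p).coeff.support, j.natAbs, fun j hj => ?_⟩
    by_contra hne
    have h1 : j.natAbs ≤ ∑ j ∈ (u p).coeff.support, j.natAbs :=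
      Finset.single_le_sum (f := fun j : ℤ => j.natAbs) (fun _ _ => Nat.zero_le _)
        (Finsupp.mem_support_iff.2 hne)
    rw [Int.abs_eq_natAbs] at hj
    omega
  choose d hd using h
  cases nonempty_fintype ι
  refine ⟨∑ p, d p, fun p j hj => hd p j ?_⟩
  have h1 : d p ≤ ∑ p, d p := Finset.single_le_sum (fun _ _ => Nat.zero_le _) (Finset.mem_univ p)
  omega

/-- the key point: division by `t - s` stays in the module -/
private theorem win_good (E : Matrix K K D[T;T⁻¹]) (M : ℕ) (w : Fin M × K → D[T;T⁻¹])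
    (h : ∀ j, winL E (M + 1) (winCf j (winA M (LaurentPolynomial.T 1) w)) = 0) (j : ℤ) :
    winL E M (winCf j w) = 0 := by
  obtain ⟨d, hd⟩ := win_bound w
  have h1 : ∀ j : ℤ, (d : ℤ) < j → winL E M (winCf j w) = 0 := by
    intro j hj
    have h2 : winCf j w = 0 := by
      funext p
      exact hd p j (lt_of_lt_of_le hj (le_abs_self j))
    rw [h2, map_zero]
  have h2 : ∀ n : ℕ, ∀ j : ℤ, (d : ℤ) < j + n → winL E M (winCf j w) = 0 := by
    intro n
    induction n with
    | zero =>
      intro j hj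
      exact h1 j (by simpa using hj)
    | succ n ih =>
      intro j hj
      have h3 := h (j + 1)
      rw [winL_A, ih (j + 1) (by push_cast at hj; omega), smul_zero, sub_zero,
        add_sub_cancel_right] at h3
      exact h3
  exact h2 (d + j.natAbs + 1) j (by omega)

end WinLau

/-- The kernel of a linear map from a finite free module over a semisimple ring is the image of
an idempotent matrix. -/
private theorem win_exists_idem (D : Type u) [Ring D] [IsSemisimpleRing D] {ι : Type v}
    [Fintype ι] [DecidableEq ι] {W : Type w} [AddCommGroup W] [Module D W]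
    (L : (ι → D) →ₗ[D] W) :
    ∃ f : Matrix ι ι D, f * f = f ∧ ∀ v, v ᵥ* f = v ↔ L v = 0 := by
  obtain ⟨q, hq⟩ := exists_isCompl (LinearMap.ker L)
  set g : (ι → D) →ₗ[D] (ι → D) := (LinearMap.ker L).subtype ∘ₗ
    (Submodule.projectionOnto (LinearMap.ker L) q hq) with hg
  have h1 : ∀ v, L (g v) = 0 := fun v =>
    (Submodule.projectionOnto (LinearMap.ker L) q hq v).2
  have h3 : ∀ v, L v = 0 → g v = v := by
    intro v hv
    have h4 := Submodule.projectionOnto_apply_left hq ⟨v, hv⟩
    exact congrArg Subtype.val h4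
  have h5 : ∀ v, v ᵥ* LinearMap.toMatrixRight' g = g v := by
    intro v
    rw [← Matrix.toLinearMapRight'_apply]
    exact LinearMap.congr_fun (LinearEquiv.symm_apply_apply LinearMap.toMatrixRight' g) v
  refine ⟨LinearMap.toMatrixRight' g, ?_, ?_⟩
  · apply Matrix.ext_of_single_vecMul
    intro i
    rw [← vecMul_vecMul, h5, h5]
    exact h3 _ (h1 _)
  · intro v
    rw [h5]
    constructor
    · intro h
      rw [← h]
      exact h1 v
    · exact h3 v

section WinMain

variable {D : Type u} [Ring D] {K : Type v} [Fintype K] [DecidableEq K]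

omit [Fintype K] [DecidableEq K] in
private theorem win_matrix_map_row {ι κ : Type*} [Fintype κ] [DecidableEq κ] (f : Matrix κ ι D)
    (c : κ) : Pi.single c 1 ᵥ* (f.map (cst D)) = fun p => cst D ((Pi.single c 1 ᵥ* f) p) := by
  rw [single_one_vecMul, single_one_vecMul]
  rfl

private theorem win_main [IsSemisimpleRing D] (E : Matrix K K D[T;T⁻¹]) (hE : E * E = E) :
    ∃ (N M : ℕ) (f₀ : Matrix (Fin N × K) (Fin N × K) D) (f₁ : Matrix (Fin M × K) (Fin M × K) D),
      f₀ * f₀ = f₀ ∧ f₁ * f₁ = f₁ ∧
      MatEquiv (fromBlocks E 0 0 (f₁.map (cst D))) (f₀.map (cst D)) := by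
  obtain ⟨d, hd⟩ := win_bound (fun p : K × K => E p.1 p.2)
  obtain ⟨f₀, hf₀, hf₀'⟩ := win_exists_idem D (winL E (2 * d + 1))
  obtain ⟨f₁, hf₁, hf₁'⟩ := win_exists_idem D (winL E (2 * d))
  refine ⟨2 * d + 1, 2 * d, f₀, f₁, hf₀, hf₁, ?_⟩
  set F0 := f₀.map (cst D) with hF0
  set F1 := f₁.map (cst D) with hF1
  have hF0F0 : F0 * F0 = F0 := by rw [hF0, ← Matrix.map_mul, hf₀]
  have hF1F1 : F1 * F1 = F1 := by rw [hF1, ← Matrix.map_mul, hf₁]
  have fix0 : ∀ u, u ᵥ* F0 = u ↔ ∀ j, winL E (2 * d + 1) (winCf j u) = 0 := by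
    intro u
    rw [hF0, win_fix_iff]
    exact forall_congr' fun j => hf₀' _
  have fix1 : ∀ u, u ᵥ* F1 = u ↔ ∀ j, winL E (2 * d) (winCf j u) = 0 := by
    intro u
    rw [hF1, win_fix_iff]
    exact forall_congr' fun j => hf₁' _
  set t : D[T;T⁻¹] := LaurentPolynomial.T 1 with ht
  set B := LinearMap.toMatrixRight' (winB (K := K) (2 * d + 1) t) with hB
  set A := LinearMap.toMatrixRight' (winA (K := K) (2 * d) t) with hA
  set C := LinearMap.toMatrixRight' (winC (K := K) (2 * d) t) with hC
  have hBv : ∀ u, u ᵥ* B = winB (2 * d + 1) t u := fun u =>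
    LinearMap.congr_fun (LinearEquiv.symm_apply_apply LinearMap.toMatrixRight' _) u
  have hAv : ∀ u, u ᵥ* A = winA (2 * d) t u := fun u =>
    LinearMap.congr_fun (LinearEquiv.symm_apply_apply LinearMap.toMatrixRight' _) u
  have hCv : ∀ u, u ᵥ* C = winC (2 * d) t u := fun u =>
    LinearMap.congr_fun (LinearEquiv.symm_apply_apply LinearMap.toMatrixRight' _) u
  have hBA : A * B = 0 := by
    apply Matrix.ext_of_single_vecMul
    intro i
    rw [← vecMul_vecMul, hAv, hBv, win_BA, vecMul_zero]
  have hCA : A * C = 1 := by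
    apply Matrix.ext_of_single_vecMul
    intro i
    rw [← vecMul_vecMul, hAv, hCv, win_CA, vecMul_one]
  have hAC : ∀ u, u ᵥ* B = 0 → (u ᵥ* C) ᵥ* A = u := by
    intro u hu
    rw [hBv] at hu
    rw [hCv, hAv]
    funext p
    rw [win_AC, hu]
    simp
  -- the section
  let c : K → Fin (2 * d + 1) × K → D := fun j p => (E j p.2).coeff ((p.1 : ℤ) - d)
  let s : Matrix K (Fin (2 * d + 1) × K) D[T;T⁻¹] :=
    Matrix.of fun j p => cst D (c j p) * LaurentPolynomial.T (-(d : ℤ))
  have hs : ∀ j, Pi.single j 1 ᵥ* s = fun p => cst D (c j p) * LaurentPolynomial.T (-(d : ℤ)) := by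
    intro j
    rw [single_one_vecMul]
    rfl
  have key : ∀ j, winB (2 * d + 1) t (fun p => cst D (c j p) * LaurentPolynomial.T (-(d : ℤ))) =
      fun i => E j i := by
    intro j
    funext i
    rw [winB_apply]
    apply ext_coeff
    intro m
    rw [AddMonoidAlgebra.coeff_sum, Finsupp.finsetSum_apply]
    simp only [ht, LaurentPolynomial.T_pow, win_coeff_mul_T, c]
    have h1 : ∀ (x : D) (k : ℤ), (cst D x).coeff k = if k = 0 then x else 0 := fun x k =>
      LaurentPolynomial.C_apply x k
    simp only [h1]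
    by_cases hm : (d : ℤ) < |m|
    · rw [hd (j, i) m hm]
      apply Finset.sum_eq_zero
      intro n _
      rw [if_neg]
      rw [Int.abs_eq_natAbs] at hm
      have := n.2
      omega
    · rw [Int.abs_eq_natAbs] at hm
      rw [Finset.sum_eq_single (⟨(m + d).toNat, by omega⟩ : Fin (2 * d + 1))]
      · simp only
        rw [if_pos (by omega), Int.toNat_of_nonneg (by omega), add_sub_cancel_right]
      · intro n _ hn
        rw [if_neg]
        intro h2
        apply hn
        apply Fin.ext
        simp only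
        omega
      · intro h
        exact absurd (Finset.mem_univ _) h
  have hBs : s * B = E := by
    apply Matrix.ext_of_single_vecMul
    intro j
    rw [← vecMul_vecMul, hs, hBv, key, single_one_vecMul]
    rfl
  have hF0s : s * F0 = s := by
    apply Matrix.ext_of_single_vecMul
    intro j
    rw [← vecMul_vecMul, fix0, hs]
    intro l
    by_cases hl : l = -(d : ℤ)
    · have h1 : winCf l (fun p => cst D (c j p) * LaurentPolynomial.T (-(d : ℤ))) = c j := by
        funext p
        change (cst D (c j p) * LaurentPolynomial.T (-(d : ℤ))).coeff l = _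
        rw [win_coeff_mul_T, hl, sub_self]
        exact (LaurentPolynomial.C_apply (c j p) 0).trans (if_pos rfl)
      have h2 : winPsi (2 * d + 1) (c j) = (LaurentPolynomial.T d : D[T;T⁻¹]) • fun i => E j i := by
        rw [← key, ← map_smul, winPsi]
        congr 1
        funext p
        rw [Pi.smul_apply, smul_eq_mul, LaurentPolynomial.T_mul, mul_assoc,
          ← LaurentPolynomial.T_add, neg_add_cancel, LaurentPolynomial.T_zero, mul_one]
      rw [h1, winL_apply, h2, smul_vecMul, ← smul_sub]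
      have h3 : (fun i => E j i) ᵥ* E = fun i => E j i := by
        conv_rhs => rw [← hE]
        rfl
      rw [h3, sub_self, smul_zero]
    · have h1 : winCf l (fun p => cst D (c j p) * LaurentPolynomial.T (-(d : ℤ))) = 0 := by
        funext p
        change (cst D (c j p) * LaurentPolynomial.T (-(d : ℤ))).coeff l = _
        rw [win_coeff_mul_T]
        exact (LaurentPolynomial.C_apply (c j p) _).trans (if_neg (by omega))
      rw [h1, map_zero]
  have hEB : F0 * B * E = F0 * B := by
    apply Matrix.ext_of_single_vecMul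
    intro i
    rw [← vecMul_vecMul, ← vecMul_vecMul, hF0, win_matrix_map_row, hBv]
    have h1 : (Pi.single i 1 ᵥ* f₀) ᵥ* f₀ = Pi.single i 1 ᵥ* f₀ := by rw [vecMul_vecMul, hf₀]
    have h2 := (hf₀' _).1 h1
    rw [winL_apply, sub_eq_zero] at h2
    exact h2
  have hFA : F1 * A * F0 = F1 * A := by
    apply Matrix.ext_of_single_vecMul
    intro i
    rw [← vecMul_vecMul, ← vecMul_vecMul]
    rw [fix0]
    have h1 : (Pi.single i 1 ᵥ* F1) ᵥ* F1 = Pi.single i 1 ᵥ* F1 := by rw [vecMul_vecMul, hF1F1]
    have h2 := (fix1 _).1 h1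
    intro j
    rw [hAv, winL_A, h2, h2, smul_zero, sub_zero]
  set q := F0 * B * s with hq
  have hBZ : (F0 - q) * B = 0 := by
    rw [hq, Matrix.sub_mul, Matrix.mul_assoc (F0 * B), hBs, hEB, sub_self]
  have hFZ : (F0 - q) * F0 = F0 - q := by
    rw [hq, Matrix.sub_mul, Matrix.mul_assoc (F0 * B), hF0s, hF0F0]
  have hFC : (F0 - q) * C * F1 = (F0 - q) * C := by
    apply Matrix.ext_of_single_vecMul
    intro i
    rw [← vecMul_vecMul, ← vecMul_vecMul, fix1]
    apply win_good
    rw [← ht, ← hAv, hAC _ (by rw [vecMul_vecMul, hBZ, vecMul_zero]), ← fix0, vecMul_vecMul, hFZ]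
  have hACZ : (F0 - q) * C * A = F0 - q := by
    apply Matrix.ext_of_single_vecMul
    intro i
    rw [← vecMul_vecMul, ← vecMul_vecMul]
    exact hAC _ (by rw [vecMul_vecMul, hBZ, vecMul_zero])
  have e1 : E * s * (F0 * B) = E := by
    rw [← Matrix.mul_assoc, Matrix.mul_assoc E, hF0s, Matrix.mul_assoc, hBs, hE]
  have e2 : E * s * ((F0 - q) * C * F1) = 0 := by
    have h1 : E * s * (F0 - q) = 0 := by
      rw [Matrix.mul_sub, Matrix.mul_assoc E s F0, hF0s, hq, ← Matrix.mul_assoc,
        e1, sub_self]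
    rw [Matrix.mul_assoc (F0 - q) C F1, ← Matrix.mul_assoc, h1, Matrix.zero_mul]
  have e3 : F1 * A * (F0 * B) = 0 := by
    rw [← Matrix.mul_assoc, hFA, Matrix.mul_assoc, hBA, Matrix.mul_zero]
  have e4 : F1 * A * ((F0 - q) * C * F1) = F1 := by
    have h1 : F1 * A * (F0 - q) = F1 * A := by
      rw [Matrix.mul_sub, hFA, hq, ← Matrix.mul_assoc, e3, Matrix.zero_mul, sub_zero]
    rw [Matrix.mul_assoc (F0 - q) C F1, ← Matrix.mul_assoc, h1, ← Matrix.mul_assoc,
      Matrix.mul_assoc F1 A C, hCA, Matrix.mul_one, hF1F1]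
  have e5 : F0 * B * (E * s) = q := by
    rw [← Matrix.mul_assoc, hEB]
  have e6 : (F0 - q) * C * F1 * (F1 * A) = F0 - q := by
    rw [← Matrix.mul_assoc, Matrix.mul_assoc _ F1 F1, hF1F1, hFC, hACZ]
  refine ⟨fromRows (E * s) (F1 * A), fromCols (F0 * B) ((F0 - q) * C * F1), ?_, ?_⟩
  · rw [fromRows_mul_fromCols, e1, e2, e3, e4]
  · rw [fromCols_mul_fromRows, e5, e6]
    abel

end WinMain

theorem stConst_semisimple (D : Type u) [Ring D] [IsSemisimpleRing D] : StConst.{u, w} D := by
  intro K _ _ E hE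
  obtain ⟨N, M, f₀, f₁, h₀, h₁, h⟩ := win_main E hE
  exact ⟨Fin N × K, Fin M × K, inferInstance, inferInstance, inferInstance, inferInstance, f₀, f₁,
    h₀, h₁, h⟩

end Pool.Agent.H95.KF
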